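import Mathlib
import Pool.Agent.Helper5.Pg.Defs

set_option autoImplicit false
open MeasureTheory Set Filter Topology

namespace Pool.Agent.Helper5.PG

theorem h319_step (G : ℕ → ℝ → ℝ) (hG : ∀ n x, HasDerivAt (G n) (G (n + 1) x) x) (M : ℕ → ℝ)
    (hM : ∀ n, 0 < M n) (hlc : ∀ n, M (n + 1) ^ 2 ≤ M n * M (n + 2))
    (hb : ∀ n x, |G n x| ≤ M n) (N : ℕ) (x t : ℝ)
    (hD : ∀ k < N + 1, |G k x| ≤ Real.exp ((k:ℝ) - ((N + 1 : ℕ) : ℝ)) * M k)
    (ht : 0 ≤ t) (ht2 : t ≤ M N / M (N + 1) / Real.exp 1) :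
    ∀ k < N, |G k (x + t)| ≤ Real.exp ((k:ℝ) - (N : ℝ)) * M k := by
  have hmono : Monotone fun n => M (n + 1) / M n := by
    refine monotone_nat_of_le_succ fun n => ?_
    rw [div_le_div_iff₀ (hM n) (hM (n + 1))]
    have := hlc n
    nlinarith
  set m := M (N + 1) / M N with hm
  have hm0 : 0 < m := div_pos (hM _) (hM _)
  have hMk : ∀ k ≤ N, M (k + 1) ≤ M k * m := by
    intro k hk
    have h := hmono hk
    simp only at h
    rw [div_le_iff₀ (hM k)] at h
    rw [mul_comm]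
    exact h
  have key : ∀ i k : ℕ, k + i = N + 1 → ∀ s : ℝ, 0 ≤ s →
      |G k (x + s)| ≤ Real.exp ((k:ℝ) - ((N + 1 : ℕ) : ℝ)) * M k * Real.exp (Real.exp 1 * m * s) := by
    intro i
    induction i with
    | zero =>
      intro k hk s hs
      rw [add_zero] at hk
      subst hk
      rw [sub_self, Real.exp_zero, one_mul]
      have h1 : 1 ≤ Real.exp (Real.exp 1 * m * s) := Real.one_le_exp (by positivity)
      exact (hb _ _).trans (le_mul_of_one_le_right (hM _).le h1)
    | succ i ih =>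
      intro k hk s hs
      have ih' := ih (k + 1) (by omega)
      have hkN : k ≤ N := by omega
      have hB := image_norm_le_of_norm_deriv_right_le_deriv_boundary
        (f := fun s => G k (x + s)) (f' := fun s => G (k + 1) (x + s)) (a := 0) (b := s)
        (B := fun s => Real.exp ((k:ℝ) - ((N + 1 : ℕ) : ℝ)) * M k * Real.exp (Real.exp 1 * m * s))
        (B' := fun s => Real.exp ((k:ℝ) - ((N + 1 : ℕ) : ℝ)) * M k *
          (Real.exp (Real.exp 1 * m * s) * (Real.exp 1 * m)))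
        ?_ ?_ ?_ ?_ ?_ (x := s) ⟨hs, le_rfl⟩
      · rw [Real.norm_eq_abs] at hB
        exact hB
      · intro y _
        exact (((hG k (x + y)).comp_const_add x y).continuousAt).continuousWithinAt
      · intro y _
        exact ((hG k (x + y)).comp_const_add x y).hasDerivWithinAt
      · simp only [mul_zero, Real.exp_zero, mul_one, add_zero, Real.norm_eq_abs]
        exact hD k (by omega)
      · intro y
        have h1 : HasDerivAt (fun s : ℝ => Real.exp 1 * m * s) (Real.exp 1 * m) y := by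
          simpa using (hasDerivAt_id y).const_mul (Real.exp 1 * m)
        exact (h1.exp).const_mul _
      · intro y hy
        rw [Real.norm_eq_abs]
        have h2 := ih' y hy.1
        have h3 : Real.exp (((k + 1 : ℕ) : ℝ) - ((N + 1 : ℕ) : ℝ)) =
            Real.exp ((k:ℝ) - ((N + 1 : ℕ) : ℝ)) * Real.exp 1 := by
          rw [← Real.exp_add]
          congr 1
          push_cast
          ring
        rw [h3] at h2
        refine h2.trans ?_
        have h4 := hMk k hkN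
        have h5 : 0 < Real.exp ((k:ℝ) - ((N + 1 : ℕ) : ℝ)) * Real.exp 1 *
            Real.exp (Real.exp 1 * m * y) := by positivity
        calc Real.exp ((k:ℝ) - ((N + 1 : ℕ) : ℝ)) * Real.exp 1 * M (k + 1) *
              Real.exp (Real.exp 1 * m * y)
            = (Real.exp ((k:ℝ) - ((N + 1 : ℕ) : ℝ)) * Real.exp 1 *
              Real.exp (Real.exp 1 * m * y)) * M (k + 1) := by ring
          _ ≤ (Real.exp ((k:ℝ) - ((N + 1 : ℕ) : ℝ)) * Real.exp 1 *
              Real.exp (Real.exp 1 * m * y)) * (M k * m) := mul_le_mul_of_nonneg_left h4 h5.le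
          _ = _ := by ring
  intro k hk
  have h1 := key (N + 1 - k) k (by omega) t ht
  refine h1.trans ?_
  have h2 : Real.exp 1 * m * t ≤ 1 := by
    have h3 : Real.exp 1 * m * t ≤ Real.exp 1 * m * (M N / M (N + 1) / Real.exp 1) :=
      mul_le_mul_of_nonneg_left ht2 (by positivity)
    refine h3.trans (le_of_eq ?_)
    rw [hm]
    have := (hM N).ne'
    have := (hM (N + 1)).ne'
    have := (Real.exp_pos 1).ne'
    field_simp
  have h4 : Real.exp (Real.exp 1 * m * t) ≤ Real.exp 1 := Real.exp_le_exp.2 h2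
  have h5 : Real.exp ((k:ℝ) - (N : ℝ)) = Real.exp ((k:ℝ) - ((N + 1 : ℕ) : ℝ)) * Real.exp 1 := by
    rw [← Real.exp_add]
    congr 1
    push_cast
    ring
  rw [h5]
  have h6 : 0 ≤ Real.exp ((k:ℝ) - ((N + 1 : ℕ) : ℝ)) * M k := by
    have := hM k
    positivity
  calc _ ≤ Real.exp ((k:ℝ) - ((N + 1 : ℕ) : ℝ)) * M k * Real.exp 1 :=
        mul_le_mul_of_nonneg_left h4 h6
    _ = _ := by ring

theorem h319_iter (G : ℕ → ℝ → ℝ) (hG : ∀ n x, HasDerivAt (G n) (G (n + 1) x) x) (M : ℕ → ℝ)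
    (hM : ∀ n, 0 < M n) (hlc : ∀ n, M (n + 1) ^ 2 ≤ M n * M (n + 2))
    (hb : ∀ n x, |G n x| ≤ M n) (K : ℕ) : ∀ (j : ℕ) (y x : ℝ),
    (∀ k < K + j, |G k y| ≤ Real.exp ((k:ℝ) - ((K + j : ℕ) : ℝ)) * M k) →
    y ≤ x → x - y ≤ ∑ n ∈ Finset.Ico K (K + j), M n / M (n + 1) / Real.exp 1 →
    ∀ k < K, |G k x| ≤ Real.exp ((k:ℝ) - (K : ℝ)) * M k := by
  intro j
  induction j with
  | zero =>
    intro y x hD h1 h2
    simp only [add_zero, Finset.Ico_self, Finset.sum_empty] at h2 hD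
    have h3 : x = y := by linarith
    rw [h3]
    exact hD
  | succ j ih =>
    intro y x hD h1 h2
    have hd0 : 0 < M (K + j) / M (K + j + 1) / Real.exp 1 :=
      div_pos (div_pos (hM _) (hM _)) (Real.exp_pos 1)
    rw [← add_assoc, Finset.sum_Ico_succ_top (by omega)] at h2
    have hst := h319_step G hG M hM hlc hb (K + j) y
      (min (x - y) (M (K + j) / M (K + j + 1) / Real.exp 1)) hD
      (le_min (by linarith) hd0.le) (min_le_right _ _)
    have hle : min (x - y) (M (K + j) / M (K + j + 1) / Real.exp 1) ≤ x - y := min_le_left _ _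
    have hsum0 : 0 ≤ ∑ n ∈ Finset.Ico K (K + j), M n / M (n + 1) / Real.exp 1 :=
      Finset.sum_nonneg fun n _ => (div_pos (div_pos (hM _) (hM _)) (Real.exp_pos 1)).le
    refine ih (y + min (x - y) (M (K + j) / M (K + j + 1) / Real.exp 1)) x hst (by linarith) ?_
    rcases min_cases (x - y) (M (K + j) / M (K + j + 1) / Real.exp 1) with h | h
    · rw [h.1]; linarith
    · rw [h.1]; linarith

theorem h319_right (G : ℕ → ℝ → ℝ) (hG : ∀ n x, HasDerivAt (G n) (G (n + 1) x) x) (M : ℕ → ℝ)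
    (hM : ∀ n, 0 < M n) (hlc : ∀ n, M (n + 1) ^ 2 ≤ M n * M (n + 2))
    (hb : ∀ n x, |G n x| ≤ M n) (h0 : ∀ n, G n 0 = 0)
    (hdiv : ¬ Summable (fun n => M n / M (n + 1))) (x : ℝ) (hx : 0 ≤ x) : G 0 x = 0 := by
  have hnn : ∀ n, 0 ≤ M n / M (n + 1) := fun n => (div_pos (hM _) (hM _)).le
  have ht := (not_summable_iff_tendsto_nat_atTop_of_nonneg hnn).1 hdiv
  have hK : ∀ K : ℕ, 1 ≤ K → |G 0 x| ≤ Real.exp (-(K:ℝ)) * M 0 := by
    intro K hK1
    obtain ⟨n, hn1, hn2⟩ := ((ht.eventually_ge_atTop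
      (Real.exp 1 * x + ∑ i ∈ Finset.range K, M i / M (i + 1))).and
      (eventually_ge_atTop K)).exists
    obtain ⟨j, rfl⟩ := Nat.exists_eq_add_of_le hn2
    have h1 := h319_iter G hG M hM hlc hb K j 0 x (by
      intro k _
      rw [h0 k, abs_zero]
      exact mul_nonneg (Real.exp_pos _).le (hM k).le) hx (by
      rw [sub_zero, ← Finset.sum_div, Finset.sum_Ico_eq_sub _ (Nat.le_add_right K j),
        le_div_iff₀ (Real.exp_pos 1)]
      linarith) 0 (by omega)
    simpa using h1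
  have hlim : Tendsto (fun K : ℕ => Real.exp (-(K:ℝ)) * M 0) atTop (𝓝 0) := by
    have h1 : Tendsto (fun K : ℕ => Real.exp (-(K:ℝ))) atTop (𝓝 0) :=
      Real.tendsto_exp_neg_atTop_nhds_zero.comp tendsto_natCast_atTop_atTop
    simpa using h1.mul_const (M 0)
  have h2 : |G 0 x| ≤ 0 := ge_of_tendsto hlim
    (by filter_upwards [eventually_ge_atTop 1] with K hK1 using hK K hK1)
  exact abs_nonpos_iff.1 h2

theorem bang (G : ℕ → ℝ → ℝ) (hG : ∀ n x, HasDerivAt (G n) (G (n + 1) x) x) (M : ℕ → ℝ)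
    (hM : ∀ n, 0 < M n) (hlc : ∀ n, M (n + 1) ^ 2 ≤ M n * M (n + 2))
    (hb : ∀ n x, |G n x| ≤ M n) (h0 : ∀ n, G n 0 = 0)
    (hdiv : ¬ Summable (fun n => M n / M (n + 1))) : ∀ x, G 0 x = 0 := by
  intro x
  rcases le_total 0 x with hx | hx
  · exact h319_right G hG M hM hlc hb h0 hdiv x hx
  · have h := h319_right (fun n y => (-1) ^ n * G n (-y)) ?_ M hM hlc ?_ ?_ hdiv (-x) (by linarith)
    · simpa using h
    · intro n y
      have h2 : HasDerivAt (fun y => G n (-y)) (G (n + 1) (-y) * (-1)) y :=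
        (hG n (-y)).comp y (hasDerivAt_neg y)
      have h3 := h2.const_mul ((-1 : ℝ) ^ n)
      have e : (-1 : ℝ) ^ (n + 1) * G (n + 1) (-y) = (-1) ^ n * (G (n + 1) (-y) * (-1)) := by
        rw [pow_succ]
        ring
      show HasDerivAt (fun y => (-1 : ℝ) ^ n * G n (-y)) ((-1 : ℝ) ^ (n + 1) * G (n + 1) (-y)) y
      rw [e]
      exact h3
    · intro n y
      rw [abs_mul, abs_pow, abs_neg, abs_one, one_pow, one_mul]
      exact hb n (-y)
    · intro n
      simp [h0 n]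

end Pool.Agent.Helper5.PG
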