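import Mathlib
import Pool.Agent.Helper5.Pg.Defs

set_option autoImplicit false
open MeasureTheory Set Filter Topology

namespace Pool.Agent.Helper5.PG

theorem sin_unique_aux (μ : Measure ℝ) [IsFiniteMeasure μ] (g φ : ℝ → ℝ)
    (hg : AEStronglyMeasurable g μ) (hφ : Continuous φ)
    (h : Integrable (fun y => g y * φ y) μ) :
    Integrable φ (μ.withDensity (fun y => ENNReal.ofReal (g y))) ∧
      ∫ y, φ y ∂(μ.withDensity (fun y => ENNReal.ofReal (g y))) = ∫ y, max (g y) 0 * φ y ∂μ ∧
      Integrable (fun y => max (g y) 0 * φ y) μ := by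
  have hm : AEMeasurable (fun y => ENNReal.ofReal (g y)) μ := hg.aemeasurable.ennreal_ofReal
  have hlt : ∀ᵐ y ∂μ, ENNReal.ofReal (g y) < ⊤ := Filter.Eventually.of_forall fun y => ENNReal.ofReal_lt_top
  have h3 : Integrable (fun y => max (g y) 0 * φ y) μ := by
    refine h.mono ?_ ?_
    · exact (hg.aemeasurable.max aemeasurable_const).aestronglyMeasurable.mul
        hφ.aestronglyMeasurable
    · refine Filter.Eventually.of_forall fun y => ?_
      rw [norm_mul, norm_mul]
      refine mul_le_mul_of_nonneg_right ?_ (norm_nonneg _)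
      rw [Real.norm_eq_abs, Real.norm_eq_abs]
      rcases le_total (g y) 0 with h0 | h0
      · rw [max_eq_right h0]; simp
      · rw [max_eq_left h0]
  refine ⟨?_, ?_, h3⟩
  · rw [integrable_withDensity_iff_integrable_smul₀' hm hlt]
    simpa [ENNReal.toReal_ofReal', smul_eq_mul] using h3
  · rw [integral_withDensity_eq_integral_toReal_smul₀ hm hlt]
    simp [ENNReal.toReal_ofReal', smul_eq_mul]

theorem sin_unique_charFun (ν : Measure ℝ) [IsFiniteMeasure ν] (t : ℝ) :
    charFun ν t = ((∫ y, Real.cos (t * y) ∂ν : ℝ) : ℂ) + ((∫ y, Real.sin (t * y) ∂ν : ℝ) : ℂ) * Complex.I := by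
  rw [charFun_apply_real]
  have h1 : ∀ y : ℝ, Complex.exp ((t : ℂ) * (y : ℂ) * Complex.I)
      = ((Real.cos (t * y) : ℝ) : ℂ) + ((Real.sin (t * y) : ℝ) : ℂ) * Complex.I := by
    intro y
    rw [Complex.exp_mul_I]
    push_cast
    rfl
  simp only [h1]
  have cc : Continuous (fun y : ℝ => Real.cos (t * y)) := by fun_prop
  have cs : Continuous (fun y : ℝ => Real.sin (t * y)) := by fun_prop
  have icr : Integrable (fun y : ℝ => Real.cos (t * y)) ν :=
    Integrable.mono' (integrable_const (1 : ℝ)) cc.aestronglyMeasurable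
      (Filter.Eventually.of_forall fun y => by
        rw [Real.norm_eq_abs]; exact Real.abs_cos_le_one _)
  have isr : Integrable (fun y : ℝ => Real.sin (t * y)) ν :=
    Integrable.mono' (integrable_const (1 : ℝ)) cs.aestronglyMeasurable
      (Filter.Eventually.of_forall fun y => by
        rw [Real.norm_eq_abs]; exact Real.abs_sin_le_one _)
  have ic : Integrable (fun y : ℝ => ((Real.cos (t * y) : ℝ) : ℂ)) ν := icr.ofReal
  have is : Integrable (fun y : ℝ => ((Real.sin (t * y) : ℝ) : ℂ)) ν := isr.ofReal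
  rw [integral_add ic (is.mul_const _), integral_mul_const, integral_complex_ofReal,
    integral_complex_ofReal]

theorem sin_unique (μ : Measure ℝ) [IsFiniteMeasure μ] (hμ0 : μ (Iic 0) = 0) (g : ℝ → ℝ)
    (hg : MemLp g 2 μ) (hm : ∀ x : ℝ, ∫ y, Real.sin (x * y) * g y ∂μ = 0) : g =ᵐ[μ] 0 := by
  have hgi : Integrable g μ := hg.integrable (by norm_num)
  set μp := μ.withDensity (fun y => ENNReal.ofReal (g y)) with hμp
  set μm := μ.withDensity (fun y => ENNReal.ofReal (-g y)) with hμm
  have : IsFiniteMeasure μp := isFiniteMeasure_withDensity_ofReal hgi.2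
  have : IsFiniteMeasure μm := isFiniteMeasure_withDensity_ofReal hgi.neg.2
  have negm : Measurable (fun y : ℝ => -y) := measurable_neg
  have hφ : ∀ (φ : ℝ → ℝ) (ε : ℝ), Continuous φ → (∀ y, |φ y| ≤ 1) → (∀ y, φ (-y) = ε * φ y) →
      (ε = 1 ∨ (∫ y, g y * φ y ∂μ = 0 ∧ ε = -1)) →
      ∫ y, φ y ∂(μp + μm.map (fun y => -y)) = ∫ y, φ y ∂(μm + μp.map (fun y => -y)) := by
    intro φ ε hc hb hpar hε
    have hgφ : Integrable (fun y => g y * φ y) μ := by
      refine hgi.mono (hgi.1.mul hc.aestronglyMeasurable) (Filter.Eventually.of_forall fun y => ?_)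
      rw [norm_mul, Real.norm_eq_abs (φ y)]
      exact mul_le_of_le_one_right (norm_nonneg _) (hb y)
    have ngφ : Integrable (fun y => (-g y) * φ y) μ := by
      simpa [neg_mul] using hgφ.neg
    obtain ⟨c1, c2, c3⟩ := sin_unique_aux μ g _ hgi.1 hc hgφ
    obtain ⟨d1, d2, d3⟩ := sin_unique_aux μ (fun y => -g y) _ hgi.neg.1 hc ngφ
    have nmap : ∀ ν : Measure ℝ, Integrable φ ν →
        Integrable φ (ν.map (fun y => -y)) := by
      intro ν hν
      rw [integrable_map_measure hc.aestronglyMeasurable negm.aemeasurable]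
      have := hν.const_mul ε
      refine this.congr (Filter.Eventually.of_forall fun y => ?_)
      simp only [Function.comp_def]
      rw [hpar]
    have nint : ∀ ν : Measure ℝ, ∫ y, φ y ∂(ν.map (fun y => -y)) = ε * ∫ y, φ y ∂ν := by
      intro ν
      rw [integral_map negm.aemeasurable hc.aestronglyMeasurable, ← integral_const_mul]
      refine integral_congr_ae (Filter.Eventually.of_forall fun y => ?_)
      exact hpar y
    rw [integral_add_measure c1 (nmap _ d1), integral_add_measure d1 (nmap _ c1), nint, nint,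
      c2, d2]
    have hdiff : ∫ y, max (g y) 0 * φ y ∂μ - ∫ y, max (-g y) 0 * φ y ∂μ
        = ∫ y, g y * φ y ∂μ := by
      rw [← integral_sub c3 d3]
      refine integral_congr_ae (Filter.Eventually.of_forall fun y => ?_)
      show max (g y) 0 * φ y - max (-g y) 0 * φ y = g y * φ y
      rw [← sub_mul]
      congr 1
      rcases le_total (g y) 0 with h0 | h0
      · rw [max_eq_right h0, max_eq_left (by linarith)]; ring
      · rw [max_eq_left h0, max_eq_right (by linarith)]; ring
    rcases hε with he | ⟨h0, he⟩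
    · rw [he]; ring
    · rw [h0] at hdiff
      rw [he]
      linarith
  have key : μp + μm.map (fun y => -y) = μm + μp.map (fun y => -y) := by
    refine Measure.ext_of_charFun ?_
    ext t
    rw [sin_unique_charFun, sin_unique_charFun]
    have e1 := hφ (fun y => Real.cos (t * y)) 1 (by fun_prop) (fun y => Real.abs_cos_le_one _)
      (fun y => by rw [one_mul, mul_neg, Real.cos_neg]) (Or.inl rfl)
    have e2 := hφ (fun y => Real.sin (t * y)) (-1) (by fun_prop) (fun y => Real.abs_sin_le_one _)
      (fun y => by rw [mul_neg, Real.sin_neg]; ring) (Or.inr ⟨by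
        rw [← hm t]
        refine integral_congr_ae (Filter.Eventually.of_forall fun y => ?_)
        show g y * Real.sin (t * y) = Real.sin (t * y) * g y
        ring, rfl⟩)
    rw [e1, e2]
  -- restrict
  have hp0 : μp (Iic 0) = 0 := withDensity_absolutelyContinuous _ _ hμ0
  have hm0 : μm (Iic 0) = 0 := withDensity_absolutelyContinuous _ _ hμ0
  have heq : μp = μm := by
    ext s hs
    have hT : MeasurableSet (s ∩ Ioi 0) := hs.inter measurableSet_Ioi
    have h1 := congrArg (fun ν : Measure ℝ => ν (s ∩ Ioi 0)) key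
    simp only [Measure.add_apply] at h1
    rw [Measure.map_apply negm hT, Measure.map_apply negm hT] at h1
    have hsub : (fun y : ℝ => -y) ⁻¹' (s ∩ Ioi 0) ⊆ Iic 0 := by
      intro y hy
      have : 0 < -y := hy.2
      simp only [mem_Iic]; linarith
    rw [measure_mono_null hsub hm0, measure_mono_null hsub hp0, add_zero, add_zero] at h1
    have split : ∀ ν : Measure ℝ, ν (Iic 0) = 0 → ν s = ν (s ∩ Ioi 0) := by
      intro ν hν
      refine (measure_inter_conull ?_).symm
      have : (Ioi (0:ℝ))ᶜ = Iic 0 := by simp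
      refine measure_mono_null ?_ hν
      intro y hy
      simpa using hy
    rw [split μp hp0, split μm hm0]; exact h1
  have hlint : ∫⁻ y, ENNReal.ofReal (g y) ∂μ ≠ ⊤ := by
    have := (isFiniteMeasure_withDensity_ofReal hgi.2 : IsFiniteMeasure μp)
    have h2 : μp univ ≠ ⊤ := measure_ne_top _ _
    rwa [hμp, withDensity_apply _ MeasurableSet.univ, Measure.restrict_univ] at h2
  have hae := (withDensity_eq_iff hgi.1.aemeasurable.ennreal_ofReal
    hgi.neg.1.aemeasurable.ennreal_ofReal hlint).1 heq
  filter_upwards [hae] with y hy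
  simp only [Pi.neg_apply] at hy
  show g y = 0
  rcases lt_trichotomy (g y) 0 with h0 | h0 | h0
  · rw [ENNReal.ofReal_of_nonpos h0.le] at hy
    have := ENNReal.ofReal_pos.2 (by linarith : 0 < -g y)
    rw [← hy] at this; exact absurd this (lt_irrefl _)
  · exact h0
  · rw [ENNReal.ofReal_of_nonpos (by linarith : -g y ≤ 0)] at hy
    have := ENNReal.ofReal_pos.2 h0
    rw [hy] at this; exact absurd this (lt_irrefl _)

end Pool.Agent.Helper5.PG
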