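import Mathlib
import Pool.Agent.Helper5.Pg.Defs
import Pool.Agent.Helper5.Pk.Bang
import Pool.Agent.Helper5.Pk.SinUnique

set_option autoImplicit false
open MeasureTheory Set Filter Topology

namespace Pool.Agent.Helper5.PG

theorem carl_unique (μ : Measure ℝ) [IsFiniteMeasure μ] (hμ0 : μ (Iic 0) = 0) (M : ℕ → ℝ)
    (hM : ∀ n, 0 < M n) (hlc : ∀ n, M (n + 1) ^ 2 ≤ M n * M (n + 2))
    (hdiv : ¬ Summable (fun n => M n / M (n + 1)))
    (hmom : ∀ n : ℕ, Integrable (fun y : ℝ => y ^ (2 * n)) μ ∧ ∫ y, y ^ (2 * n) ∂μ ≤ M n ^ 2)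
    (g : ℝ → ℝ) (hg : MemLp g 2 μ)
    (hm : ∀ k : ℕ, ∫ y, y ^ (2 * k + 1) * g y ∂μ = 0) : g =ᵐ[μ] 0 := by
  have hpow : ∀ n : ℕ, MemLp (fun y : ℝ => y ^ n) 2 μ := by
    intro n
    rw [memLp_two_iff_integrable_sq (continuous_pow n).aestronglyMeasurable]
    refine (hmom n).1.congr (ae_of_all _ fun y => ?_)
    show y ^ (2 * n) = (y ^ n) ^ 2
    rw [mul_comm, pow_mul]
  have hint : ∀ n : ℕ, Integrable (fun y : ℝ => y ^ n * g y) μ := fun n =>
    (hpow n).integrable_mul hg
  have hgm : AEStronglyMeasurable g μ := hg.1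
  have hg2 : Integrable (fun y => g y ^ 2) μ := (memLp_two_iff_integrable_sq hgm).mp hg
  have hmeas : ∀ (n : ℕ) (x : ℝ), AEStronglyMeasurable
      (fun y : ℝ => y ^ n * Real.sin (x * y + n * (Real.pi / 2)) * g y) μ := by
    intro n x
    refine AEStronglyMeasurable.mul ?_ hgm
    exact Continuous.aestronglyMeasurable (by fun_prop)
  have hle : ∀ (n : ℕ) (x y : ℝ),
      |y ^ n * Real.sin (x * y + n * (Real.pi / 2)) * g y| ≤ |y ^ n * g y| := by
    intro n x y
    rw [abs_mul, abs_mul, abs_mul]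
    have h1 := Real.abs_sin_le_one (x * y + n * (Real.pi / 2))
    have h2 := abs_nonneg (y ^ n)
    have h3 := abs_nonneg (g y)
    calc |y ^ n| * |Real.sin (x * y + n * (Real.pi / 2))| * |g y|
        ≤ |y ^ n| * 1 * |g y| :=
          mul_le_mul_of_nonneg_right (mul_le_mul_of_nonneg_left h1 h2) h3
      _ = |y ^ n| * |g y| := by ring
  have hF : ∀ (n : ℕ) (x : ℝ), Integrable
      (fun y : ℝ => y ^ n * Real.sin (x * y + n * (Real.pi / 2)) * g y) μ := by
    intro n x
    exact (hint n).mono (hmeas n x) (ae_of_all _ fun y => hle n x y)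
  let G : ℕ → ℝ → ℝ := fun n x => ∫ y, y ^ n * Real.sin (x * y + n * (Real.pi / 2)) * g y ∂μ
  have hG : ∀ n x, HasDerivAt (G n) (G (n + 1) x) x := by
    intro n x
    refine (hasDerivAt_integral_of_dominated_loc_of_deriv_le
      (F := fun (x y : ℝ) => y ^ n * Real.sin (x * y + n * (Real.pi / 2)) * g y)
      (F' := fun (x y : ℝ) =>
        y ^ (n + 1) * Real.sin (x * y + ((n + 1 : ℕ) : ℝ) * (Real.pi / 2)) * g y)
      (s := univ) (bound := fun y => |y ^ (n + 1) * g y|) univ_mem
      (Filter.Eventually.of_forall fun x => hmeas n x) (hF n x) (hmeas (n + 1) x)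
      (ae_of_all _ fun y x _ => hle (n + 1) x y) (hint (n + 1)).abs
      (ae_of_all _ fun y x _ => ?_)).2
    have h1 : HasDerivAt (fun x : ℝ => x * y + n * (Real.pi / 2)) y x := by
      simpa using ((hasDerivAt_id x).mul_const y).add_const (n * (Real.pi / 2))
    have h3 := ((h1.sin).const_mul (y ^ n)).mul_const (g y)
    refine h3.congr_deriv ?_
    push_cast
    rw [show x * y + ((n : ℝ) + 1) * (Real.pi / 2) = (x * y + n * (Real.pi / 2)) + Real.pi / 2 by
      ring, Real.sin_add_pi_div_two]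
    ring
  set c : ℝ := (1 + ∫ y, g y ^ 2 ∂μ) / 2 with hc
  have hg2nn : 0 ≤ ∫ y, g y ^ 2 ∂μ := integral_nonneg fun y => sq_nonneg _
  have hc0 : 0 < c := by positivity
  have hb : ∀ n x, |G n x| ≤ M n * c := by
    intro n x
    have hMn := hM n
    have hbi : Integrable (fun y : ℝ => (y ^ (2 * n) / M n + M n * g y ^ 2) / 2) μ :=
      (((hmom n).1.div_const _).add (hg2.const_mul _)).div_const _
    have h1 : ‖G n x‖ ≤ ∫ y, (y ^ (2 * n) / M n + M n * g y ^ 2) / 2 ∂μ := by
      apply norm_integral_le_of_norm_le hbi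
      refine ae_of_all _ fun y => ?_
      refine (hle n x y).trans ?_
      rw [abs_mul]
      have h2 : (y ^ (2 * n) / M n + M n * g y ^ 2) / 2 - |y ^ n| * |g y|
          = (|y ^ n| - M n * |g y|) ^ 2 / M n / 2 := by
        have e1 : y ^ (2 * n) = |y ^ n| ^ 2 := by rw [sq_abs, ← pow_mul, mul_comm]
        have e2 : g y ^ 2 = |g y| ^ 2 := (sq_abs _).symm
        rw [e1, e2]
        field_simp
        ring
      have h3 : 0 ≤ (|y ^ n| - M n * |g y|) ^ 2 / M n / 2 := by positivity
      linarith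
    rw [Real.norm_eq_abs] at h1
    refine h1.trans ?_
    rw [integral_div, integral_add ((hmom n).1.div_const _) (hg2.const_mul _), integral_div,
      integral_const_mul]
    have h4 : (∫ y, y ^ (2 * n) ∂μ) / M n ≤ M n := by
      rw [div_le_iff₀ hMn]
      have := (hmom n).2
      nlinarith
    rw [hc]
    linarith
  have h0 : ∀ n, G n 0 = 0 := by
    intro n
    have e : G n 0 = Real.sin (n * (Real.pi / 2)) * ∫ y, y ^ n * g y ∂μ := by
      simp only [G]
      rw [← integral_const_mul]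
      congr 1
      funext y
      rw [zero_mul, zero_add]
      ring
    rw [e]
    rcases Nat.even_or_odd' n with ⟨k, hk | hk⟩
    · have : Real.sin (n * (Real.pi / 2)) = 0 := by
        rw [hk]
        push_cast
        rw [show 2 * (k : ℝ) * (Real.pi / 2) = k * Real.pi by ring]
        exact Real.sin_nat_mul_pi k
      rw [this, zero_mul]
    · rw [hk, hm k, mul_zero]
  have hz := bang G hG (fun n => M n * c) (fun n => mul_pos (hM n) hc0) (by
      intro n
      have := hlc n
      calc (M (n + 1) * c) ^ 2 = M (n + 1) ^ 2 * c ^ 2 := by ring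
        _ ≤ (M n * M (n + 2)) * c ^ 2 := mul_le_mul_of_nonneg_right this (by positivity)
        _ = M n * c * (M (n + 2) * c) := by ring) hb h0 (by
      intro hs
      apply hdiv
      refine hs.congr fun n => ?_
      rw [mul_div_mul_right _ _ hc0.ne'])
  apply sin_unique μ hμ0 g hg
  intro x
  have := hz x
  simp only [G] at this
  simpa using this

end Pool.Agent.Helper5.PG
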