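import Mathlib
import Pool.Agent.Helper5.Pg.Defs
import Pool.Agent.Helper5.Pk.CarlUnique

set_option autoImplicit false
open MeasureTheory Set Filter Topology

namespace Pool.Agent.Helper5.PG

theorem carl_l2_dense_mem (μ : Measure ℝ) [IsFiniteMeasure μ] 
    (hint : ∀ n : ℕ, Integrable (fun y : ℝ => y ^ (2 * n)) μ) (k : ℕ) :
    MemLp (fun y : ℝ => (y : ℂ) ^ (2 * k + 1)) 2 μ := by
  have hc : Continuous (fun y : ℝ => (y : ℂ) ^ (2 * k + 1)) := by fun_prop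
  rw [memLp_two_iff_integrable_sq_norm hc.aestronglyMeasurable]
  refine (hint (2 * k + 1)).congr (Eventually.of_forall fun y => ?_)
  simp only
  rw [norm_pow, Complex.norm_real, Real.norm_eq_abs]
  have h1 : (|y| ^ (2 * k + 1)) ^ 2 = (|y| ^ 2) ^ (2 * k + 1) := by ring
  rw [h1, sq_abs, ← pow_mul]

theorem carl_l2_dense_coe {μ : Measure ℝ} [IsFiniteMeasure μ]
    (hm : ∀ k : ℕ, MemLp (fun y : ℝ => (y : ℂ) ^ (2 * k + 1)) 2 μ) (c : ℕ → ℂ) (n : ℕ) :
    (∑ k ∈ Finset.range n, c k • (hm k).toLp _ : Lp ℂ 2 μ) =ᵐ[μ]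
      fun y : ℝ => ∑ k ∈ Finset.range n, c k * (y : ℂ) ^ (2 * k + 1) := by
  induction n with
  | zero =>
    simp only [Finset.range_zero, Finset.sum_empty]
    filter_upwards [Lp.coeFn_zero ℂ 2 μ] with y hy
    rw [hy]
    rfl
  | succ n ih =>
    simp only [Finset.sum_range_succ]
    filter_upwards [ih, Lp.coeFn_add (∑ k ∈ Finset.range n, c k • (hm k).toLp _ : Lp ℂ 2 μ)
      (c n • (hm n).toLp _), Lp.coeFn_smul (c n) ((hm n).toLp _), (hm n).coeFn_toLp] with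
      y h1 h2 h3 h4
    rw [h2, Pi.add_apply, h1, h3, Pi.smul_apply, h4, smul_eq_mul]



theorem carl_l2_dense (μ : Measure ℝ) [IsFiniteMeasure μ] (hμ0 : μ (Iic 0) = 0) (M : ℕ → ℝ)
    (hM : ∀ n, 0 < M n) (hlc : ∀ n, M (n + 1) ^ 2 ≤ M n * M (n + 2))
    (hdiv : ¬ Summable (fun n => M n / M (n + 1)))
    (hmom : ∀ n : ℕ, Integrable (fun y : ℝ => y ^ (2 * n)) μ ∧ ∫ y, y ^ (2 * n) ∂μ ≤ M n ^ 2)
    (H : ℝ → ℂ) (hH : MemLp H 2 μ) (ε : ℝ) (hε : 0 < ε) :
    ∃ (n : ℕ) (c : ℕ → ℂ),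
      eLpNorm (fun y : ℝ => H y - ∑ k ∈ Finset.range n, c k * (y : ℂ) ^ (2 * k + 1)) 2 μ
        < ENNReal.ofReal ε := by
  have hm : ∀ k : ℕ, MemLp (fun y : ℝ => (y : ℂ) ^ (2 * k + 1)) 2 μ :=
    carl_l2_dense_mem μ (fun n => (hmom n).1)
  set e : ℕ → Lp ℂ 2 μ := fun k => (hm k).toLp _ with he
  have horth : (Submodule.span ℂ (Set.range e))ᗮ = ⊥ := by
    rw [Submodule.eq_bot_iff]
    intro g hg
    rw [Submodule.mem_orthogonal] at hg
    have hgm : MemLp (g : ℝ → ℂ) 2 μ := Lp.memLp g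
    have hint : ∀ k : ℕ, Integrable (fun y : ℝ => (y : ℂ) ^ (2 * k + 1) * (g : ℝ → ℂ) y) μ := by
      intro k
      exact (hm k).integrable_mul hgm
    have hzero : ∀ k : ℕ, ∫ y, (y : ℂ) ^ (2 * k + 1) * (g : ℝ → ℂ) y ∂μ = 0 := by
      intro k
      have h1 := hg (e k) (Submodule.subset_span ⟨k, rfl⟩)
      rw [L2.inner_def] at h1
      rw [← h1]
      refine integral_congr_ae ?_
      filter_upwards [(hm k).coeFn_toLp] with y hy
      simp only [he]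
      rw [hy]
      simp [RCLike.inner_apply, mul_comm]
    have hre : (fun y => ((g : ℝ → ℂ) y).re) =ᵐ[μ] 0 := by
      refine carl_unique μ hμ0 M hM hlc hdiv hmom _ hgm.re fun k => ?_
      have h1 := congrArg Complex.re (hzero k)
      have h2 : (∫ y, (y : ℂ) ^ (2 * k + 1) * (g : ℝ → ℂ) y ∂μ).re
          = ∫ y, ((y : ℂ) ^ (2 * k + 1) * (g : ℝ → ℂ) y).re ∂μ :=
        (integral_re (hint k)).symm
      rw [h2] at h1
      rw [← Complex.zero_re, ← h1]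
      refine integral_congr_ae (Eventually.of_forall fun y => ?_)
      change _ = ((y : ℂ) ^ (2 * k + 1) * (g : ℝ → ℂ) y).re
      rw [← Complex.ofReal_pow, Complex.re_ofReal_mul]
    have him : (fun y => ((g : ℝ → ℂ) y).im) =ᵐ[μ] 0 := by
      refine carl_unique μ hμ0 M hM hlc hdiv hmom _ hgm.im fun k => ?_
      have h1 := congrArg Complex.im (hzero k)
      have h2 : (∫ y, (y : ℂ) ^ (2 * k + 1) * (g : ℝ → ℂ) y ∂μ).im
          = ∫ y, ((y : ℂ) ^ (2 * k + 1) * (g : ℝ → ℂ) y).im ∂μ :=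
        (integral_im (hint k)).symm
      rw [h2] at h1
      rw [← Complex.zero_im, ← h1]
      refine integral_congr_ae (Eventually.of_forall fun y => ?_)
      change _ = ((y : ℂ) ^ (2 * k + 1) * (g : ℝ → ℂ) y).im
      rw [← Complex.ofReal_pow, Complex.im_ofReal_mul]
    refine (Lp.eq_zero_iff_ae_eq_zero).2 ?_
    filter_upwards [hre, him] with y h1 h2
    exact Complex.ext h1 h2
  have htop := (Submodule.topologicalClosure_eq_top_iff).2 horth
  have hmem : hH.toLp H ∈ closure ((Submodule.span ℂ (Set.range e) : Submodule ℂ (Lp ℂ 2 μ)) :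
      Set (Lp ℂ 2 μ)) := by
    rw [← Submodule.topologicalClosure_coe, htop]
    trivial
  obtain ⟨b, hb, hbd⟩ := Metric.mem_closure_iff.1 hmem ε hε
  obtain ⟨c, hc⟩ := Finsupp.mem_span_range_iff_exists_finsupp.1 hb
  obtain ⟨n, hn⟩ : ∃ n, c.support ⊆ Finset.range n :=
    ⟨c.support.sup id + 1, fun x hx => Finset.mem_range.2
      (Nat.lt_succ_of_le (Finset.le_sup (f := id) hx))⟩
  have hbsum : b = ∑ k ∈ Finset.range n, c k • e k := by
    rw [← hc, Finsupp.sum]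
    refine Finset.sum_subset hn fun x _ hx => ?_
    rw [Finsupp.notMem_support_iff.1 hx, zero_smul]
  refine ⟨n, c, ?_⟩
  have hae : (⇑(hH.toLp H - b) : ℝ → ℂ) =ᵐ[μ]
      fun y : ℝ => H y - ∑ k ∈ Finset.range n, c k * (y : ℂ) ^ (2 * k + 1) := by
    rw [hbsum]
    filter_upwards [Lp.coeFn_sub (hH.toLp H) (∑ k ∈ Finset.range n, c k • e k),
      hH.coeFn_toLp, carl_l2_dense_coe hm c n] with y h1 h2 h3
    rw [h1, Pi.sub_apply, h2, h3]
  rw [← eLpNorm_congr_ae hae]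
  rw [dist_eq_norm, Lp.norm_def] at hbd
  exact (ENNReal.lt_ofReal_iff_toReal_lt (Lp.eLpNorm_ne_top _)).2 hbd

end Pool.Agent.Helper5.PG
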