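import Mathlib
import Pool.Agent.Helper5.Pg.Defs
import Pool.Agent.Helper5.Pk.CarlL2Dense

set_option autoImplicit false
open MeasureTheory Set Filter Topology

namespace Pool.Agent.Helper5.PG

theorem carl_odd_dense (W : ℝ → ℝ) (hW : ContinuousOn W (Ioi 0)) (hpos : ∀ y, 0 < y → 0 < W y)
    (M : ℕ → ℝ) (hM : ∀ n, 0 < M n) (hlc : ∀ n, M (n + 1) ^ 2 ≤ M n * M (n + 2))
    (hdiv : ¬ Summable (fun n => M n / M (n + 1)))
    (hb : ∀ (n : ℕ) (y : ℝ), 0 < y → y ^ (2 * n) * (1 + y) ^ 4 * W y ≤ M n ^ 2)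
    (H : ℝ → ℂ) (hH : IntegrableOn (fun y : ℝ => H y * (W y : ℂ)) (Ioi 0))
    (ε : ℝ) (hε : 0 < ε) :
    ∃ (n : ℕ) (c : ℕ → ℂ),
      IntegrableOn (fun y : ℝ =>
        ‖H y - ∑ k ∈ Finset.range n, c k * (y : ℂ) ^ (2 * k + 1)‖ * W y) (Ioi 0) ∧
      ∫ y in Ioi (0:ℝ), ‖H y - ∑ k ∈ Finset.range n, c k * (y : ℂ) ^ (2 * k + 1)‖ * W y < ε := by
  have hWm : AEMeasurable W (volume.restrict (Ioi (0:ℝ))) := hW.aemeasurable measurableSet_Ioi
  have hder : ∀ y ∈ Ici (0:ℝ), HasDerivAt (fun y : ℝ => -(1 + y)⁻¹) (1 / (1 + y) ^ 2) y := by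
    intro y hy
    have hy0 : (0:ℝ) ≤ y := hy
    have h1 : HasDerivAt (fun y : ℝ => 1 + y) 1 y := (hasDerivAt_id y).const_add 1
    have h2 := (h1.inv (by positivity)).neg
    have h3 : -(-1 / (1 + y) ^ 2) = 1 / (1 + y) ^ 2 := by rw [neg_div, neg_neg]
    rw [← h3]
    exact h2
  have hnn : ∀ y ∈ Ioi (0:ℝ), 0 ≤ 1 / (1 + y) ^ 2 := fun y _ => by positivity
  have hlim : Tendsto (fun y : ℝ => -(1 + y)⁻¹) atTop (𝓝 0) := by
    have h1 : Tendsto (fun y : ℝ => (1 + y)⁻¹) atTop (𝓝 0) :=
      tendsto_inv_atTop_zero.comp (tendsto_atTop_add_const_left _ _ tendsto_id)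
    simpa using h1.neg
  have hI1 : IntegrableOn (fun y : ℝ => 1 / (1 + y) ^ 2) (Ioi 0) :=
    integrableOn_Ioi_deriv_of_nonneg' hder hnn hlim
  have hI2 : ∫ y in Ioi (0:ℝ), 1 / (1 + y) ^ 2 = 1 := by
    rw [integral_Ioi_of_hasDerivAt_of_nonneg' hder hnn hlim]
    norm_num
  have hbd : ∀ (n : ℕ) (y : ℝ), 0 < y → y ^ (2 * n) * ((1 + y) ^ 2 * W y) ≤ M n ^ 2 * (1 / (1 + y) ^ 2) := by
    intro n y hy
    have h1 := hb n y hy
    rw [mul_one_div, le_div_iff₀ (by positivity)]
    calc y ^ (2 * n) * ((1 + y) ^ 2 * W y) * (1 + y) ^ 2 = y ^ (2 * n) * (1 + y) ^ 4 * W y := by ring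
      _ ≤ M n ^ 2 := h1
  have hWI : ∀ n : ℕ, IntegrableOn (fun y => y ^ (2 * n) * ((1 + y) ^ 2 * W y)) (Ioi 0) := by
    intro n
    refine Integrable.mono' (hI1.const_mul (M n ^ 2)) ?_ ?_
    · exact ((by fun_prop : Measurable fun y : ℝ => y ^ (2 * n)).aemeasurable.mul
        ((by fun_prop : Measurable fun y : ℝ => (1 + y) ^ 2).aemeasurable.mul
        hWm)).aestronglyMeasurable
    · filter_upwards [ae_restrict_mem measurableSet_Ioi] with y hy
      have hWy := hpos y hy
      have hy' : (0:ℝ) < y := hy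
      rw [Real.norm_of_nonneg (by positivity)]
      exact hbd n y hy
  set ν : Measure ℝ := (volume.restrict (Ioi (0:ℝ))).withDensity (fun y => ENNReal.ofReal (W y)) with hν
  set μ : Measure ℝ := (volume.restrict (Ioi (0:ℝ))).withDensity
    (fun y => ENNReal.ofReal ((1 + y) ^ 2 * W y)) with hμ
  have hμm : AEMeasurable (fun y => ENNReal.ofReal ((1 + y) ^ 2 * W y))
      (volume.restrict (Ioi (0:ℝ))) :=
    ((by fun_prop : Measurable fun y : ℝ => (1 + y) ^ 2).aemeasurable.mul
        hWm).ennreal_ofReal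
  have hνm : AEMeasurable (fun y => ENNReal.ofReal (W y)) (volume.restrict (Ioi (0:ℝ))) :=
    hWm.ennreal_ofReal
  have hνμ : ν ≤ μ := by
    apply withDensity_mono
    filter_upwards [ae_restrict_mem measurableSet_Ioi] with y hy
    apply ENNReal.ofReal_le_ofReal
    have hWy := hpos y hy
    have hy' : (0:ℝ) < y := hy
    have : 1 ≤ (1 + y) ^ 2 := by nlinarith
    nlinarith
  haveI hμf : IsFiniteMeasure μ := by
    apply isFiniteMeasure_withDensity_ofReal
    have h0 := (hWI 0).hasFiniteIntegral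
    simpa using h0
  haveI hνf : IsFiniteMeasure ν := isFiniteMeasure_of_le μ hνμ
  have hμ0 : μ (Iic 0) = 0 := by
    apply withDensity_absolutelyContinuous (volume.restrict (Ioi (0:ℝ))) _
    rw [Measure.restrict_apply measurableSet_Iic]
    have : Iic (0:ℝ) ∩ Ioi 0 = ∅ := by
      ext y; simp
    rw [this, measure_empty]
  have hmom : ∀ n : ℕ, Integrable (fun y : ℝ => y ^ (2 * n)) μ ∧ ∫ y, y ^ (2 * n) ∂μ ≤ M n ^ 2 := by
    intro n
    constructor
    · rw [hμ, integrable_withDensity_iff_integrable_smul₀' hμm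
        (Eventually.of_forall fun y => ENNReal.ofReal_lt_top)]
      refine (hWI n).congr ?_
      filter_upwards [ae_restrict_mem measurableSet_Ioi] with y hy
      have hWy := hpos y hy
      rw [ENNReal.toReal_ofReal (by positivity), smul_eq_mul]
      ring
    · rw [hμ, integral_withDensity_eq_integral_toReal_smul₀ hμm
        (Eventually.of_forall fun y => ENNReal.ofReal_lt_top)]
      have h1 : ∫ y in Ioi (0:ℝ), (ENNReal.ofReal ((1 + y) ^ 2 * W y)).toReal • y ^ (2 * n)
          ≤ ∫ y in Ioi (0:ℝ), M n ^ 2 * (1 / (1 + y) ^ 2) := by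
        apply integral_mono_ae
        · refine (hWI n).congr ?_
          filter_upwards [ae_restrict_mem measurableSet_Ioi] with y hy
          have hWy := hpos y hy
          rw [ENNReal.toReal_ofReal (by positivity), smul_eq_mul]
          ring
        · exact hI1.const_mul (M n ^ 2)
        · filter_upwards [ae_restrict_mem measurableSet_Ioi] with y hy
          have hWy := hpos y hy
          rw [ENNReal.toReal_ofReal (by positivity), smul_eq_mul]
          have := hbd n y hy
          linarith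
      refine h1.trans ?_
      rw [integral_const_mul, hI2, mul_one]
  have hconv : ∀ g : ℝ → ℂ, Integrable g ν → IntegrableOn (fun y => ‖g y‖ * W y) (Ioi 0) ∧
      ENNReal.ofReal (∫ y in Ioi (0:ℝ), ‖g y‖ * W y) = eLpNorm g 1 ν := by
    intro g hg
    have h1 := hg.norm
    have h2 : ∫ y, ‖g y‖ ∂ν = ∫ y in Ioi (0:ℝ), ‖g y‖ * W y := by
      rw [hν, integral_withDensity_eq_integral_toReal_smul₀ hνm
        (Eventually.of_forall fun y => ENNReal.ofReal_lt_top)]
      apply integral_congr_ae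
      filter_upwards [ae_restrict_mem measurableSet_Ioi] with y hy
      rw [ENNReal.toReal_ofReal (hpos y hy).le, smul_eq_mul, mul_comm]
    refine ⟨?_, ?_⟩
    · rw [hν, integrable_withDensity_iff_integrable_smul₀' hνm
        (Eventually.of_forall fun y => ENNReal.ofReal_lt_top)] at h1
      refine h1.congr ?_
      filter_upwards [ae_restrict_mem measurableSet_Ioi] with y hy
      rw [ENNReal.toReal_ofReal (hpos y hy).le, smul_eq_mul, mul_comm]
    · rw [← h2, eLpNorm_one_eq_lintegral_enorm, ofReal_integral_norm_eq_lintegral_enorm hg]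
  have hHν : Integrable H ν := by
    rw [hν, integrable_withDensity_iff_integrable_smul₀' hνm
      (Eventually.of_forall fun y => ENNReal.ofReal_lt_top)]
    refine hH.congr ?_
    filter_upwards [ae_restrict_mem measurableSet_Ioi] with y hy
    rw [ENNReal.toReal_ofReal (hpos y hy).le, Complex.real_smul, mul_comm]
  obtain ⟨s, hs, hsm⟩ := (memLp_one_iff_integrable.2 hHν).exists_simpleFunc_eLpNorm_sub_lt
    ENNReal.one_ne_top (ε := ENNReal.ofReal (ε / 2)) (by simp; positivity)
  set C : ℝ := ((μ Set.univ) ^ ((1:ℝ) / 2)).toReal with hC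
  have hCtop : (μ Set.univ) ^ ((1:ℝ) / 2) ≠ ⊤ :=
    ENNReal.rpow_ne_top_of_nonneg (by norm_num) (measure_ne_top _ _)
  have hC0 : 0 ≤ C := ENNReal.toReal_nonneg
  have hε' : 0 < (ε / 2) / (C + 1) := by positivity
  obtain ⟨n, c, hP⟩ := carl_l2_dense μ hμ0 M hM hlc hdiv hmom s
    (s.memLp_of_isFiniteMeasure 2 μ) _ hε'
  set P : ℝ → ℂ := fun y => ∑ k ∈ Finset.range n, c k * (y : ℂ) ^ (2 * k + 1) with hPdef
  have hPc : Continuous P := by rw [hPdef]; fun_prop
  have hsP : AEStronglyMeasurable (fun y => s y - P y) μ :=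
    s.aestronglyMeasurable.sub hPc.aestronglyMeasurable
  have hsP1 : eLpNorm (fun y => s y - P y) 1 ν < ENNReal.ofReal (ε / 2) := by
    calc eLpNorm (fun y => s y - P y) 1 ν ≤ eLpNorm (fun y => s y - P y) 1 μ :=
          eLpNorm_mono_measure _ hνμ
      _ ≤ eLpNorm (fun y => s y - P y) 2 μ *
          μ Set.univ ^ (1 / (1:ENNReal).toReal - 1 / (2:ENNReal).toReal) :=
          eLpNorm_le_eLpNorm_mul_rpow_measure_univ (by norm_num) hsP
      _ = eLpNorm (fun y => s y - P y) 2 μ * ENNReal.ofReal C := by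
          rw [hC, ENNReal.ofReal_toReal hCtop]
          congr 2
          norm_num
      _ ≤ ENNReal.ofReal ((ε / 2) / (C + 1)) * ENNReal.ofReal C := by
          gcongr
      _ = ENNReal.ofReal ((ε / 2) / (C + 1) * C) := (ENNReal.ofReal_mul hε'.le).symm
      _ < ENNReal.ofReal (ε / 2) := by
          rw [ENNReal.ofReal_lt_ofReal_iff (by positivity), div_mul_eq_mul_div,
            div_lt_iff₀ (by positivity)]
          nlinarith
  have hsPi : Integrable (fun y => s y - P y) ν :=
    memLp_one_iff_integrable.1 ⟨s.aestronglyMeasurable.sub hPc.aestronglyMeasurable,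
      hsP1.trans ENNReal.ofReal_lt_top⟩
  have hHs : Integrable (fun y => H y - s y) ν := hHν.sub (memLp_one_iff_integrable.1 hsm)
  have hHP : Integrable (fun y => H y - P y) ν := by
    refine (hHs.add hsPi).congr (Eventually.of_forall fun y => ?_)
    simp only [Pi.add_apply]; ring
  obtain ⟨h1, h2⟩ := hconv _ hHP
  refine ⟨n, c, h1, ?_⟩
  have h3 : eLpNorm (fun y => H y - P y) 1 ν < ENNReal.ofReal ε := by
    have h4 : (fun y => H y - P y) = (fun y => H y - s y) + fun y => s y - P y := by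
      funext y; simp only [Pi.add_apply]; ring
    rw [h4]
    calc _ ≤ eLpNorm (fun y => H y - s y) 1 ν + eLpNorm (fun y => s y - P y) 1 ν :=
          eLpNorm_add_le hHs.aestronglyMeasurable hsPi.aestronglyMeasurable le_rfl
      _ < ENNReal.ofReal (ε / 2) + ENNReal.ofReal (ε / 2) := ENNReal.add_lt_add hs hsP1
      _ = ENNReal.ofReal ε := by
          rw [← ENNReal.ofReal_add (by positivity) (by positivity)]
          congr 1; ring
  rw [← h2, ENNReal.ofReal_lt_ofReal_iff hε] at h3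
  exact h3

end Pool.Agent.Helper5.PG
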