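import Mathlib
import Pool.Agent.Helper5.Pg.Defs
import Pool.Agent.Helper5.Pg.CpowPw
import Pool.Agent.Helper5.Pk.CarlOddDense

set_option autoImplicit false
open MeasureTheory Set Filter Topology

namespace Pool.Agent.Helper5.PG

theorem goc_norm_pw (a : ℝ) (c : ℂ) (t : ℝ) (ht : 0 < t) :
    ‖pw a c t‖ = t ^ (a - 1) * Real.exp (c.re * t) := by
  unfold pw
  rw [norm_mul, Complex.norm_real, Real.norm_of_nonneg (by positivity), Complex.norm_exp]
  congr 2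
  simp

theorem goc_pw_cont (a : ℝ) (c : ℂ) : ContinuousOn (pw a c) (Ioi 0) := by
  unfold pw
  refine ContinuousOn.mul ?_ (by fun_prop)
  refine Complex.continuous_ofReal.comp_continuousOn ?_
  exact ContinuousOn.rpow_const continuousOn_id (fun x hx => Or.inl (ne_of_gt hx))

/-- transported weight -/
noncomputable def gocW (w : ℝ → ℝ) (b : ℝ) (c : ℂ) (y : ℝ) : ℝ :=
  w (y ^ (1 / b)) * Real.exp (c.re * y ^ (1 / b))

/-- transported function -/
noncomputable def gocH (h : ℝ → ℂ) (b : ℝ) (c : ℂ) (y : ℝ) : ℂ :=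
  h (y ^ (1 / b)) * Complex.exp (-(c * (y ^ (1 / b) : ℝ))) * (((y ^ (1 / b)) ^ (1 - b) : ℝ) : ℂ)

theorem goc_inv (b : ℝ) (hb : 0 < b) (t : ℝ) (ht : 0 < t) : (t ^ b) ^ (1 / b) = t := by
  rw [← Real.rpow_mul ht.le, mul_one_div_cancel hb.ne', Real.rpow_one]

theorem gocW_cont (w : ℝ → ℝ) (hw : IsWeight w) (b : ℝ) (c : ℂ) :
    ContinuousOn (gocW w b c) (Ioi 0) := by
  have h1 : ContinuousOn (fun y : ℝ => y ^ (1 / b)) (Ioi 0) :=
    ContinuousOn.rpow_const continuousOn_id (fun x hx => Or.inl (ne_of_gt hx))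
  unfold gocW
  refine ContinuousOn.mul ?_ ?_
  · exact hw.cont.comp h1 (fun y hy => Real.rpow_nonneg (le_of_lt hy) _)
  · exact (continuousOn_const.mul h1).rexp

theorem gocHW_int (w : ℝ → ℝ) (b : ℝ) (hb : 0 < b) (c : ℂ)
    (h : ℝ → ℂ) (hh : InL1 w h) :
    IntegrableOn (fun y : ℝ => gocH h b c y * (gocW w b c y : ℂ)) (Ioi 0) := by
  rw [← integrableOn_Ioi_comp_rpow_iff' _ hb.ne']
  unfold InL1 at hh
  have h1 : IntegrableOn (fun t : ℝ => Complex.exp (-(c * t) + (c.re * t : ℝ)) * (h t * (w t : ℂ)))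
      (Ioi 0) := by
    refine Integrable.bdd_mul (c := 1) hh ?_ ?_
    · apply Continuous.aestronglyMeasurable
      fun_prop
    · refine Filter.Eventually.of_forall fun t => ?_
      rw [Complex.norm_exp]
      simp
  refine h1.congr_fun (fun t ht => ?_) measurableSet_Ioi
  have ht0 : 0 < t := ht
  simp only [gocH, gocW]
  rw [goc_inv b hb t ht0, Complex.exp_add]
  have e1 : ((t ^ (b - 1) : ℝ) : ℂ) * ((t ^ (1 - b) : ℝ) : ℂ) = 1 := by
    rw [← Complex.ofReal_mul, ← Real.rpow_add ht0]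
    simp
  rw [Complex.real_smul]
  push_cast
  have e2 : ((t ^ (b - 1) : ℝ) : ℂ) * (h t * Complex.exp (-(c * (t : ℂ))) * ((t ^ (1 - b) : ℝ) : ℂ)
      * ((w t : ℂ) * Complex.exp (c.re * t)))
      = (((t ^ (b - 1) : ℝ) : ℂ) * ((t ^ (1 - b) : ℝ) : ℂ)) * (Complex.exp (-(c * (t : ℂ)))
        * Complex.exp (c.re * t) * (h t * (w t : ℂ))) := by ring
  rw [e1, one_mul] at e2
  exact e2.symm

theorem goc_point (w : ℝ → ℝ) (hw : IsWeight w) (a : ℝ) (ha : 0 < a) (c : ℂ)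
    (h : ℝ → ℂ) (n : ℕ) (d : ℕ → ℂ) (C : ℕ → ℝ) (hC0 : ∀ k, 0 < C k)
    (hC : ∀ k, ∀ t : ℝ, 0 < t → cpow (pw a c) k t = (C k : ℂ) * pw (a * (k + 1)) c t)
    (t : ℝ) (ht : 0 < t) :
    ‖h t - ∑ k ∈ Finset.range n, (d k / (C k : ℂ)) * cpow (pw a c) k t‖ * w t
      = t ^ (a / 2 - 1) * (‖gocH h (a / 2) c (t ^ (a / 2))
          - ∑ k ∈ Finset.range n, d k * (((t ^ (a / 2) : ℝ) : ℂ)) ^ (2 * k + 1)‖
          * gocW w (a / 2) c (t ^ (a / 2))) := by
  have hb : 0 < a / 2 := by positivity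
  simp only [gocH, gocW]
  rw [goc_inv _ hb t ht]
  have e1 : ((t ^ (a / 2 - 1) : ℝ) : ℂ) * ((t ^ (1 - a / 2) : ℝ) : ℂ) = 1 := by
    rw [← Complex.ofReal_mul, ← Real.rpow_add ht]
    simp
  have e2 : Complex.exp (c * t) * Complex.exp (-(c * (t : ℂ))) = 1 := by
    rw [← Complex.exp_add]; simp
  -- factor
  have e3 : h t - ∑ k ∈ Finset.range n, (d k / (C k : ℂ)) * cpow (pw a c) k t
      = (((t ^ (a / 2 - 1) : ℝ) : ℂ) * Complex.exp (c * t)) *
        (h t * Complex.exp (-(c * (t : ℂ))) * ((t ^ (1 - a / 2) : ℝ) : ℂ)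
          - ∑ k ∈ Finset.range n, d k * (((t ^ (a / 2) : ℝ) : ℂ)) ^ (2 * k + 1)) := by
    rw [mul_sub, Finset.mul_sum]
    congr 1
    · have : (((t ^ (a / 2 - 1) : ℝ) : ℂ) * Complex.exp (c * t)) *
        (h t * Complex.exp (-(c * (t : ℂ))) * ((t ^ (1 - a / 2) : ℝ) : ℂ))
        = (((t ^ (a / 2 - 1) : ℝ) : ℂ) * ((t ^ (1 - a / 2) : ℝ) : ℂ))
          * (Complex.exp (c * t) * Complex.exp (-(c * (t : ℂ)))) * h t := by ring
      rw [this, e1, e2, one_mul, one_mul]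
    · refine Finset.sum_congr rfl fun k _ => ?_
      rw [hC k t ht]
      have hCk : (C k : ℂ) ≠ 0 := by exact_mod_cast (hC0 k).ne'
      have e4 : ((t ^ (a * (k + 1) - 1) : ℝ) : ℂ)
          = ((t ^ (a / 2 - 1) : ℝ) : ℂ) * (((t ^ (a / 2) : ℝ) : ℂ)) ^ (2 * k + 1) := by
        rw [← Complex.ofReal_pow, ← Complex.ofReal_mul, ← Real.rpow_natCast, ← Real.rpow_mul ht.le,
          ← Real.rpow_add ht]
        congr 2
        push_cast
        ring
      unfold pw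
      rw [e4]
      field_simp
  rw [e3, norm_mul, norm_mul, Complex.norm_real, Real.norm_of_nonneg (by positivity),
    Complex.norm_exp]
  have e5 : (c * (t : ℂ)).re = c.re * t := by simp
  rw [e5]
  ring



theorem gen_of_carl (w : ℝ → ℝ) (hw : IsWeight w) (a : ℝ) (ha : 0 < a) (c : ℂ)
    (hf : InL1 w (pw a c)) (M : ℕ → ℝ) (hM : ∀ n, 0 < M n)
    (hlc : ∀ n, M (n + 1) ^ 2 ≤ M n * M (n + 2))
    (hdiv : ¬ Summable (fun n => M n / M (n + 1)))
    (hb : ∀ (n : ℕ) (t : ℝ), 0 < t →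
      (t ^ (a / 2)) ^ (2 * n) * (1 + t ^ (a / 2)) ^ 4 * (w t * Real.exp (c.re * t)) ≤ M n ^ 2) :
    IsPolyGen w (pw a c) := by
  refine ⟨hf, ?_⟩
  intro h hh ε hε
  have hb0 : 0 < a / 2 := by positivity
  choose C hC0 hC using fun k => cpow_pw a ha c k
  obtain ⟨n, d, hint, hlt⟩ := carl_odd_dense (gocW w (a / 2) c) (gocW_cont w hw (a / 2) c)
    (fun y hy => mul_pos (hw.pos _ (Real.rpow_nonneg hy.le _)) (Real.exp_pos _)) M hM hlc hdiv
    (fun n y hy => by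
      have hy1 : 0 < y ^ (1 / (a / 2)) := Real.rpow_pos_of_pos hy _
      have h1 := hb n _ hy1
      have h2 : (y ^ (1 / (a / 2))) ^ (a / 2) = y := by
        rw [← Real.rpow_mul hy.le, one_div_mul_cancel hb0.ne', Real.rpow_one]
      rw [h2] at h1
      exact h1)
    (gocH h (a / 2) c) (gocHW_int w (a / 2) hb0 c h hh) (ε * (a / 2)) (by positivity)
  refine ⟨n, fun k => d k / (C k : ℂ), ?_⟩
  have hcomp := (integrableOn_Ioi_comp_rpow_iff' (fun y : ℝ => ‖gocH h (a / 2) c y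
      - ∑ k ∈ Finset.range n, d k * (y : ℂ) ^ (2 * k + 1)‖ * gocW w (a / 2) c y) hb0.ne').2 hint
  have hval := integral_comp_rpow_Ioi_of_pos (g := fun y : ℝ => ‖gocH h (a / 2) c y
      - ∑ k ∈ Finset.range n, d k * (y : ℂ) ^ (2 * k + 1)‖ * gocW w (a / 2) c y) hb0
  have e0 : ∫⁻ t in Ioi (0:ℝ), ENNReal.ofReal
      (‖h t - ∑ k ∈ Finset.range n, (d k / (C k : ℂ)) * cpow (pw a c) k t‖ * w t)
      = ∫⁻ t in Ioi (0:ℝ), ENNReal.ofReal (t ^ (a / 2 - 1) • (‖gocH h (a / 2) c (t ^ (a / 2))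
          - ∑ k ∈ Finset.range n, d k * (((t ^ (a / 2) : ℝ) : ℂ)) ^ (2 * k + 1)‖
          * gocW w (a / 2) c (t ^ (a / 2)))) := by
    refine setLIntegral_congr_fun measurableSet_Ioi (fun t ht => ?_)
    rw [goc_point w hw a ha c h n d C hC0 hC t ht, smul_eq_mul]
  rw [e0, ← ofReal_integral_eq_lintegral_ofReal hcomp]
  · refine (ENNReal.ofReal_lt_ofReal_iff hε).2 ?_
    have e1 : ∫ t in Ioi (0:ℝ), ((a / 2) * t ^ (a / 2 - 1)) • (‖gocH h (a / 2) c (t ^ (a / 2))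
          - ∑ k ∈ Finset.range n, d k * (((t ^ (a / 2) : ℝ) : ℂ)) ^ (2 * k + 1)‖
          * gocW w (a / 2) c (t ^ (a / 2)))
        = (a / 2) * ∫ t in Ioi (0:ℝ), t ^ (a / 2 - 1) • (‖gocH h (a / 2) c (t ^ (a / 2))
          - ∑ k ∈ Finset.range n, d k * (((t ^ (a / 2) : ℝ) : ℂ)) ^ (2 * k + 1)‖
          * gocW w (a / 2) c (t ^ (a / 2))) := by
      rw [← integral_const_mul]
      refine integral_congr_ae (Filter.Eventually.of_forall fun t => ?_)
      simp only [smul_eq_mul]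
      ring
    rw [e1] at hval
    have h3 : (a / 2) * ∫ t in Ioi (0:ℝ), t ^ (a / 2 - 1) • (‖gocH h (a / 2) c (t ^ (a / 2))
          - ∑ k ∈ Finset.range n, d k * (((t ^ (a / 2) : ℝ) : ℂ)) ^ (2 * k + 1)‖
          * gocW w (a / 2) c (t ^ (a / 2))) < (a / 2) * ε := by
      rw [hval, mul_comm (a / 2) ε]
      exact hlt
    exact lt_of_mul_lt_mul_left h3 hb0.le
  · refine (ae_restrict_iff' measurableSet_Ioi).2 (Filter.Eventually.of_forall fun t ht => ?_)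
    have ht0 : (0:ℝ) < t := ht
    have hw1 : 0 ≤ gocW w (a / 2) c (t ^ (a / 2)) :=
      mul_nonneg (hw.pos _ (Real.rpow_nonneg (Real.rpow_nonneg ht0.le _) _)).le (Real.exp_pos _).le
    simp only [Pi.zero_apply, smul_eq_mul]
    positivity

end Pool.Agent.Helper5.PG
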