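import Mathlib
import Pool.Agent.Helper5.Pg.Defs

set_option autoImplicit false
open MeasureTheory Set Filter Topology

namespace Pool.Agent.Helper5.PG

theorem legendre_gam : ∫⁻ s in Ioi (0:ℝ), ENNReal.ofReal (s * Real.exp (-s)) = 1 := by
  have h1 : IntegrableOn (fun s : ℝ => s * Real.exp (-s)) (Ioi 0) := by
    have := Real.GammaIntegral_convergent (s := 2) (by norm_num)
    refine this.congr_fun (fun s _ => ?_) measurableSet_Ioi
    show Real.exp (-s) * s ^ ((2:ℝ) - 1) = s * Real.exp (-s)
    norm_num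
    ring
  rw [← ofReal_integral_eq_lintegral_ofReal h1]
  · have h2 := Real.Gamma_eq_integral (s := 2) (by norm_num)
    have h3 : ∫ s in Ioi (0:ℝ), s * Real.exp (-s) = 1 := by
      rw [← Real.Gamma_two, h2]
      refine setIntegral_congr_fun measurableSet_Ioi fun s _ => ?_
      show s * Real.exp (-s) = Real.exp (-s) * s ^ ((2:ℝ) - 1)
      norm_num
      ring
    rw [h3, ENNReal.ofReal_one]
  · refine (ae_restrict_iff' measurableSet_Ioi).2 (Filter.Eventually.of_forall fun s hs => ?_)
    have : (0:ℝ) < s := hs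
    show (0:ℝ) ≤ s * Real.exp (-s)
    positivity

theorem legendre_ker (a : ℝ) :
    ∫⁻ s in Ioi (0:ℝ), ENNReal.ofReal (max (s - a) 0 * Real.exp (-s)) ≤
      ENNReal.ofReal (Real.exp (-a)) := by
  refine (setLIntegral_le_lintegral _ _).trans ?_
  rw [← lintegral_add_right_eq_self _ a]
  have h1 : ∀ s : ℝ, ENNReal.ofReal (max (s + a - a) 0 * Real.exp (-(s + a))) =
      ENNReal.ofReal (Real.exp (-a)) *
        (Ioi (0:ℝ)).indicator (fun s => ENNReal.ofReal (s * Real.exp (-s))) s := by
    intro s
    rw [add_sub_cancel_right, neg_add, Real.exp_add]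
    by_cases hs : 0 < s
    · rw [indicator_of_mem (mem_Ioi.mpr hs), max_eq_left hs.le,
        ← ENNReal.ofReal_mul (Real.exp_pos _).le]
      congr 1
      ring
    · rw [indicator_of_notMem (by simpa using hs), mul_zero, max_eq_right (not_lt.mp hs), zero_mul,
        ENNReal.ofReal_zero]
  simp only [h1]
  rw [lintegral_const_mul' _ _ ENNReal.ofReal_ne_top, lintegral_indicator measurableSet_Ioi,
    legendre_gam, mul_one]

/-- the integrability statement -/
theorem legendre_int (θ : ℝ → ℝ) (hcont : Continuous θ) (σ : ℕ → ℝ) (A : ℝ) (hA : 0 ≤ A)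
    (hsum : Summable fun k => Real.exp (-(σ k)))
    (hb : ∀ s : ℝ, 0 < s → ∃ n : ℕ, |θ s| ≤ A + s + ∑ k ∈ Finset.range n, max (s - σ k) 0) :
    IntegrableOn (fun s : ℝ => θ s * Real.exp (-s)) (Ioi 0) := by
  refine ⟨(hcont.mul (Real.continuous_exp.comp continuous_neg)).aestronglyMeasurable, ?_⟩
  have hpt : ∀ s : ℝ, s ∈ Ioi (0:ℝ) → ‖θ s * Real.exp (-s)‖ₑ ≤
      ENNReal.ofReal (A * Real.exp (-s) + s * Real.exp (-s)) +
        ∑' k, ENNReal.ofReal (max (s - σ k) 0 * Real.exp (-s)) := by
    intro s hs
    obtain ⟨n, hn⟩ := hb s hs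
    have he := (Real.exp_pos (-s)).le
    have hs0 : (0:ℝ) < s := hs
    rw [← ofReal_norm, Real.norm_eq_abs, abs_mul, abs_of_pos (Real.exp_pos _)]
    have h1 : |θ s| * Real.exp (-s) ≤ (A * Real.exp (-s) + s * Real.exp (-s)) +
        ∑ k ∈ Finset.range n, max (s - σ k) 0 * Real.exp (-s) := by
      rw [← Finset.sum_mul]
      have := mul_le_mul_of_nonneg_right hn he
      linarith
    refine (ENNReal.ofReal_le_ofReal h1).trans ?_
    rw [ENNReal.ofReal_add (by positivity)
      (Finset.sum_nonneg fun k _ => mul_nonneg (le_max_right _ _) he)]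
    refine add_le_add le_rfl ?_
    rw [ENNReal.ofReal_sum_of_nonneg fun k _ => mul_nonneg (le_max_right _ _) he]
    exact ENNReal.sum_le_tsum _
  refine lt_of_le_of_lt (setLIntegral_mono' measurableSet_Ioi hpt) ?_
  rw [lintegral_add_left' (by
    have : Measurable fun s : ℝ => A * Real.exp (-s) + s * Real.exp (-s) := by fun_prop
    exact this.ennreal_ofReal.aemeasurable)]
  refine ENNReal.add_lt_top.2 ⟨?_, ?_⟩
  · have h1 : IntegrableOn (fun s : ℝ => s * Real.exp (-s)) (Ioi 0) := by
      have := Real.GammaIntegral_convergent (s := 2) (by norm_num)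
      refine this.congr_fun (fun s _ => ?_) measurableSet_Ioi
      show Real.exp (-s) * s ^ ((2:ℝ) - 1) = s * Real.exp (-s)
      norm_num
      ring
    have h2 : IntegrableOn (fun s : ℝ => A * Real.exp (-s)) (Ioi 0) := by
      have := (integrableOn_exp_neg_Ioi 0).const_mul A
      exact this
    have h3 := h2.add h1
    have h4 := h3.lintegral_lt_top
    exact h4
  · rw [lintegral_tsum fun k => by
      have : Measurable fun s : ℝ => max (s - σ k) 0 * Real.exp (-s) := by fun_prop
      exact this.ennreal_ofReal.aemeasurable]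
    refine lt_of_le_of_lt (ENNReal.tsum_le_tsum fun k => legendre_ker (σ k)) ?_
    exact hsum.tsum_ofReal_lt_top

theorem legendre (θ : ℝ → ℝ) (hθ : ConvexOn ℝ univ θ)
    (hgrow : ∀ n : ℕ, ∃ B : ℝ, ∀ s : ℝ, n * s ≤ θ s + B)
    (hint : ¬ IntegrableOn (fun s : ℝ => θ s * Real.exp (-s)) (Ioi 0)) :
    ∃ S : ℕ → ℝ, (∀ n, 0 < S n) ∧ (∀ n, S (n + 1) ^ 2 ≤ S n * S (n + 2)) ∧
      ¬ Summable (fun n => S n / S (n + 1)) ∧
      ∀ (n : ℕ) (s : ℝ), Real.exp (n * s - θ s) ≤ S n := by
  have hcont : Continuous θ := by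
    rw [← continuousOn_univ]
    exact ConvexOn.continuousOn isOpen_univ hθ
  set S : ℕ → ℝ := fun n => ⨆ s : ℝ, Real.exp (n * s - θ s) with hS
  have hbdd : ∀ n : ℕ, BddAbove (range fun s : ℝ => Real.exp (n * s - θ s)) := by
    intro n
    obtain ⟨B, hB⟩ := hgrow n
    refine ⟨Real.exp B, ?_⟩
    rintro _ ⟨s, rfl⟩
    exact Real.exp_le_exp.mpr (by linarith [hB s])
  have hle : ∀ (n : ℕ) (s : ℝ), Real.exp (n * s - θ s) ≤ S n := fun n s => le_ciSup (hbdd n) s
  have hpos : ∀ n, 0 < S n := fun n => (Real.exp_pos _).trans_le (hle n 0)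
  refine ⟨S, hpos, ?_, ?_, hle⟩
  · intro n
    have h1 : S (n + 1) ≤ Real.sqrt (S n * S (n + 2)) := by
      apply ciSup_le
      intro s
      apply Real.le_sqrt_of_sq_le
      have e1 : Real.exp (((n + 1 : ℕ) : ℝ) * s - θ s) ^ 2 =
          Real.exp (n * s - θ s) * Real.exp (((n + 2 : ℕ) : ℝ) * s - θ s) := by
        rw [← Real.exp_add, ← Real.exp_nat_mul]
        congr 1
        push_cast
        ring
      rw [e1]
      exact mul_le_mul (hle n s) (hle (n + 2) s) (Real.exp_pos _).le (hpos n).le
    calc S (n + 1) ^ 2 ≤ Real.sqrt (S n * S (n + 2)) ^ 2 :=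
          pow_le_pow_left₀ (hpos _).le h1 2
      _ = S n * S (n + 2) := Real.sq_sqrt (mul_pos (hpos _) (hpos _)).le
  · intro hsum
    apply hint
    -- maximisers
    have hmax : ∀ k : ℕ, ∃ x : ℝ, ∀ s : ℝ, θ x - (k + 1) * x ≤ θ s - (k + 1) * s := by
      intro k
      obtain ⟨B₁, hB₁⟩ := hgrow k
      obtain ⟨B₂, hB₂⟩ := hgrow (k + 2)
      have hc : Continuous fun s : ℝ => θ s - (k + 1) * s :=
        hcont.sub (continuous_const.mul continuous_id)
      refine hc.exists_forall_le ?_
      refine tendsto_atTop_mono (f := fun s : ℝ => ‖s‖ + (-(|B₁| + |B₂|))) (fun s => ?_)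
        (tendsto_atTop_add_const_right _ _ tendsto_norm_cocompact_atTop)
      have h1 := hB₁ s
      have h2 := hB₂ s
      push_cast at h2
      have h3 := le_abs_self B₁
      have h4 := le_abs_self B₂
      have h5 := abs_nonneg B₁
      have h6 := abs_nonneg B₂
      rw [Real.norm_eq_abs]
      rcases abs_cases s with ⟨h7, -⟩ | ⟨h7, -⟩ <;> rw [h7] <;> linarith
    choose σ hσ using hmax
    have hmono : ∀ k, σ k ≤ σ (k + 1) := by
      intro k
      have h1 := hσ k (σ (k + 1))
      have h2 := hσ (k + 1) (σ k)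
      push_cast at h2
      linarith
    have hmono' : Monotone σ := monotone_nat_of_le_succ hmono
    have hSk : ∀ k, S (k + 1) ≤ Real.exp ((k + 1) * σ k - θ (σ k)) := by
      intro k
      apply ciSup_le
      intro s
      rw [Real.exp_le_exp]
      have := hσ k s
      push_cast
      linarith
    have hratio : ∀ k, Real.exp (-(σ k)) ≤ S k / S (k + 1) := by
      intro k
      rw [le_div_iff₀ (hpos _)]
      calc Real.exp (-(σ k)) * S (k + 1)
          ≤ Real.exp (-(σ k)) * Real.exp ((k + 1) * σ k - θ (σ k)) :=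
            mul_le_mul_of_nonneg_left (hSk k) (Real.exp_pos _).le
        _ = Real.exp (k * σ k - θ (σ k)) := by
            rw [← Real.exp_add]
            congr 1
            ring
        _ ≤ S k := hle k _
    have hsum2 : Summable fun k => Real.exp (-(σ k)) :=
      Summable.of_nonneg_of_le (fun k => (Real.exp_pos _).le) hratio hsum
    -- slopes
    have hslope : ∀ (k : ℕ) (u v : ℝ), u ≤ v → v ≤ σ k → θ v - θ u ≤ (k + 1) * (v - u) := by
      intro k u v huv hv
      rcases huv.eq_or_lt with h0 | h0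
      · rw [h0]; simp
      · have hlt : u < σ k := lt_of_lt_of_le h0 hv
        have hden : 0 < σ k - u := by linarith
        set lam : ℝ := (v - u) / (σ k - u) with hlam
        have hl0 : 0 ≤ lam := div_nonneg (by linarith) hden.le
        have hl1 : lam ≤ 1 := (div_le_one hden).mpr (by linarith)
        have hmul : lam * (σ k - u) = v - u := div_mul_cancel₀ _ hden.ne'
        have h1 := hθ.2 (mem_univ u) (mem_univ (σ k)) (sub_nonneg.mpr hl1) hl0 (by ring)
        have h2 : (1 - lam) • u + lam • σ k = v := by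
          rw [smul_eq_mul, smul_eq_mul]
          linarith
        rw [h2, smul_eq_mul, smul_eq_mul] at h1
        have h3 := hσ k u
        have h4 : lam * (θ (σ k) - θ u) ≤ lam * ((k + 1) * (σ k - u)) :=
          mul_le_mul_of_nonneg_left (by linarith) hl0
        have h5 : lam * ((k + 1) * (σ k - u)) = (k + 1) * (v - u) := by
          rw [← hmul]; ring
        linarith
    have hind : ∀ n : ℕ, ∀ s : ℝ, σ 0 ≤ s → s ≤ σ n →
        θ s ≤ θ (σ 0) + (s - σ 0) + ∑ k ∈ Finset.range n, max (s - σ k) 0 := by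
      intro n
      induction n with
      | zero =>
        intro s h1 h2
        have : s = σ 0 := le_antisymm h2 h1
        rw [this]; simp
      | succ n ih =>
        intro s h1 h2
        rw [Finset.sum_range_succ]
        by_cases h3 : s ≤ σ n
        · have := ih s h1 h3
          have h4 := le_max_right (s - σ n) 0
          linarith
        · rw [not_le] at h3
          have h4 := hslope (n + 1) (σ n) s h3.le h2
          have h5 := ih (σ n) (hmono' (Nat.zero_le n)) le_rfl
          have h6 : ∑ k ∈ Finset.range n, max (s - σ k) 0 =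
              ∑ k ∈ Finset.range n, max (σ n - σ k) 0 + n * (s - σ n) := by
            have : ∀ k ∈ Finset.range n, max (s - σ k) 0 = max (σ n - σ k) 0 + (s - σ n) := by
              intro k hk
              have hk' : σ k ≤ σ n := hmono' (Finset.mem_range.mp hk).le
              rw [max_eq_left (by linarith), max_eq_left (by linarith)]
              ring
            rw [Finset.sum_congr rfl this, Finset.sum_add_distrib, Finset.sum_const,
              Finset.card_range, nsmul_eq_mul]
          have h7 : max (s - σ n) 0 = s - σ n := max_eq_left (by linarith)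
          rw [h6, h7]
          push_cast at h4
          linarith
    -- σ tends to infinity
    have hunb : ∀ s : ℝ, ∃ n, s ≤ σ n := by
      intro s
      have h1 := hsum2.tendsto_atTop_zero
      have h2 := (h1.eventually (gt_mem_nhds (Real.exp_pos (-s)))).exists
      obtain ⟨n, hn⟩ := h2
      refine ⟨n, ?_⟩
      have := Real.exp_lt_exp.mp hn
      linarith
    obtain ⟨B₀, hB₀⟩ := hgrow 0
    refine legendre_int θ hcont σ (|B₀| + |θ 0| + |θ (σ 0)| + |σ 0|) (by positivity) hsum2 ?_
    intro s hs
    obtain ⟨n, hn⟩ := hunb s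
    refine ⟨n, ?_⟩
    have hsumnn : 0 ≤ ∑ k ∈ Finset.range n, max (s - σ k) 0 :=
      Finset.sum_nonneg fun k _ => le_max_right _ _
    have hlow := hB₀ s
    simp only [Nat.cast_zero, zero_mul] at hlow
    have a1 := le_abs_self B₀
    have a2 := le_abs_self (θ 0)
    have a3 := le_abs_self (θ (σ 0))
    have a4 := neg_abs_le (σ 0)
    have a5 := abs_nonneg B₀
    have a6 := abs_nonneg (θ 0)
    have a7 := abs_nonneg (θ (σ 0))
    have a8 := abs_nonneg (σ 0)
    rw [abs_le]
    constructor
    · linarith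
    · by_cases h0 : σ 0 ≤ s
      · have := hind n s h0 hn
        linarith
      · rw [not_le] at h0
        have h1 := hθ.le_max_of_mem_Icc (mem_univ (0:ℝ)) (mem_univ (σ 0)) ⟨hs.le, h0.le⟩
        have h2 : max (θ 0) (θ (σ 0)) ≤ |θ 0| + |θ (σ 0)| := max_le (by linarith) (by linarith)
        linarith

end Pool.Agent.Helper5.PG
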