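import Mathlib
import Pool.Agent.Helper5.Pg.Defs

set_option autoImplicit false
open MeasureTheory Set Filter Topology

namespace Pool.Agent.Helper5.PG

theorem seq_exists (Ψ : ℝ → ℝ) (hc : Continuous Ψ) (hm : Monotone Ψ)
    (hint : IntegrableOn (fun y : ℝ => Ψ y / y ^ 2) (Ioi 1)) :
    ∃ b : ℕ → ℝ, (∀ n, 0 < b n) ∧ Summable b ∧ ∃ C : ℝ, 0 < C ∧ ∀ y : ℝ, 0 ≤ y →
      ∀ᶠ N in atTop, ∏ n ∈ Finset.range N, |Real.sinc (b n * y)| ≤ C * Real.exp (-Ψ y) := by
  classical
  obtain ⟨Φ, hΦ⟩ : ∃ Φ : ℝ → ℝ, ∀ y, Φ y = (Ψ y - Ψ 1) + Real.sqrt y := ⟨_, fun _ => rfl⟩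
  have hΦc : Continuous Φ := by
    have : Φ = fun y => (Ψ y - Ψ 1) + Real.sqrt y := funext hΦ
    rw [this]
    exact (hc.sub continuous_const).add Real.continuous_sqrt
  have hΦm : ∀ a b : ℝ, 1 ≤ a → a < b → Φ a < Φ b := by
    intro a b ha hab
    rw [hΦ, hΦ]
    have h1 := hm hab.le
    have h2 := Real.sqrt_lt_sqrt (by linarith : (0 : ℝ) ≤ a) hab
    linarith
  have hex : ∀ n : ℕ, ∃ x : ℝ, 1 ≤ x ∧ Φ x = n + 1 := by
    intro n
    have hM : (1 : ℝ) ≤ ((n : ℝ) + 1) ^ 2 := by
      have : (0 : ℝ) ≤ n := Nat.cast_nonneg n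
      nlinarith
    have h1 := intermediate_value_Icc hM hΦc.continuousOn
    have h2 : ((n : ℝ) + 1) ∈ Icc (Φ 1) (Φ (((n : ℝ) + 1) ^ 2)) := by
      constructor
      · rw [hΦ, Real.sqrt_one, sub_self, zero_add]
        have : (0 : ℝ) ≤ n := Nat.cast_nonneg n
        linarith
      · rw [hΦ, Real.sqrt_sq (by positivity)]
        have := hm hM
        linarith
    obtain ⟨x, hx, hxe⟩ := h1 h2
    exact ⟨x, hx.1, hxe⟩
  choose x hx1 hxΦ using hex
  have hx0 : ∀ n, 0 < x n := fun n => by linarith [hx1 n]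
  -- integral of y^-2
  have hint2 : ∀ c : ℝ, 0 < c → IntegrableOn (fun y : ℝ => y ^ (-2 : ℝ)) (Ioi c) := fun c hc =>
    integrableOn_Ioi_rpow_of_lt (by norm_num) hc
  have hval : ∀ c : ℝ, 0 < c → ∫ y in Ioi c, y ^ (-2 : ℝ) = 1 / c := by
    intro c hc
    rw [integral_Ioi_rpow_of_lt (by norm_num) hc]
    have : (-2 : ℝ) + 1 = -1 := by norm_num
    rw [this, Real.rpow_neg_one]
    field_simp
  have hΦint : IntegrableOn (fun y : ℝ => Φ y * y ^ (-2 : ℝ)) (Ioi 1) := by
    have h1 : IntegrableOn (fun y : ℝ => Ψ y / y ^ 2 - Ψ 1 * y ^ (-2 : ℝ) + y ^ (-(3 / 2) : ℝ))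
        (Ioi 1) := by
      refine (hint.sub ((hint2 1 one_pos).const_mul _)).add ?_
      exact integrableOn_Ioi_rpow_of_lt (by norm_num) one_pos
    refine h1.congr_fun ?_ measurableSet_Ioi
    intro y hy
    have hy0 : (0 : ℝ) < y := lt_trans one_pos hy
    have e1 : y ^ (-2 : ℝ) = 1 / y ^ 2 := by
      rw [Real.rpow_neg hy0.le, one_div]
      norm_cast
    have e2 : y ^ (-(3 / 2) : ℝ) = Real.sqrt y * y ^ (-2 : ℝ) := by
      rw [Real.sqrt_eq_rpow, ← Real.rpow_add hy0]
      norm_num
    show Ψ y / y ^ 2 - Ψ 1 * y ^ (-2 : ℝ) + y ^ (-(3 / 2) : ℝ) = Φ y * y ^ (-2 : ℝ)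
    rw [e2, hΦ, e1]
    ring
  have hsum : Summable (fun n => 1 / x n) := by
    apply summable_of_sum_range_le (c := ∫ y in Ioi 1, Φ y * y ^ (-2 : ℝ))
    · intro n
      have := hx0 n
      positivity
    · intro N
      have e1 : ∀ n, 1 / x n = ∫ y in Ioi 1, (Ioi (x n)).indicator (fun y => y ^ (-2 : ℝ)) y := by
        intro n
        rw [setIntegral_indicator measurableSet_Ioi, Ioi_inter_Ioi, sup_eq_right.2 (hx1 n),
          hval _ (hx0 n)]
      have hi : ∀ n ∈ Finset.range N, Integrable ((Ioi (x n)).indicator (fun y => y ^ (-2 : ℝ)))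
          (volume.restrict (Ioi 1)) := by
        intro n _
        exact (hint2 1 one_pos).indicator measurableSet_Ioi
      calc ∑ n ∈ Finset.range N, 1 / x n
          = ∑ n ∈ Finset.range N, ∫ y in Ioi 1, (Ioi (x n)).indicator (fun y => y ^ (-2 : ℝ)) y :=
            Finset.sum_congr rfl fun n _ => e1 n
        _ = ∫ y in Ioi 1, ∑ n ∈ Finset.range N, (Ioi (x n)).indicator (fun y => y ^ (-2 : ℝ)) y :=
            (integral_finset_sum _ hi).symm
        _ ≤ ∫ y in Ioi 1, Φ y * y ^ (-2 : ℝ) := by
            apply setIntegral_mono_on (integrable_finset_sum _ hi) hΦint measurableSet_Ioi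
            intro y hy
            have hy1 : (1 : ℝ) < y := hy
            have hy0 : (0 : ℝ) < y := by linarith
            have e2 : ∑ n ∈ Finset.range N, (Ioi (x n)).indicator (fun y => y ^ (-2 : ℝ)) y =
                (((Finset.range N).filter (fun n => x n < y)).card : ℝ) * y ^ (-2 : ℝ) := by
              rw [← nsmul_eq_mul, ← Finset.sum_const, Finset.sum_filter]
              apply Finset.sum_congr rfl
              intro n _
              rw [Set.indicator_apply]
              rfl
            rw [e2]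
            apply mul_le_mul_of_nonneg_right _ (Real.rpow_nonneg hy0.le _)
            have hΦy : 0 ≤ Φ y := by
              rw [hΦ]
              have h1 := hm hy1.le
              have h2 := Real.sqrt_nonneg y
              linarith
            have hsub : (Finset.range N).filter (fun n => x n < y) ⊆ Finset.range ⌊Φ y⌋₊ := by
              intro n hn
              rw [Finset.mem_filter] at hn
              rw [Finset.mem_range]
              have h1 := hΦm (x n) y (hx1 n) hn.2
              rw [hxΦ n] at h1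
              have h2 : n + 1 ≤ ⌊Φ y⌋₊ := by
                rw [Nat.le_floor_iff hΦy]
                push_cast
                exact h1.le
              omega
            have h3 := Finset.card_le_card hsub
            rw [Finset.card_range] at h3
            calc (((Finset.range N).filter (fun n => x n < y)).card : ℝ) ≤ (⌊Φ y⌋₊ : ℝ) := by
                  exact_mod_cast h3
              _ ≤ Φ y := Nat.floor_le hΦy
  refine ⟨fun n => Real.exp 1 / x n, fun n => div_pos (Real.exp_pos _) (hx0 n), ?_, ?_⟩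
  · have := hsum.mul_left (Real.exp 1)
    refine this.congr fun n => ?_
    ring
  · have hle1 : ∀ t : ℝ, |Real.sinc t| ≤ 1 := fun t => Real.abs_sinc_le_one t
    refine ⟨Real.exp (1 + Ψ 1), Real.exp_pos _, fun y hy => ?_⟩
    rcases lt_or_ge y 1 with hy1 | hy1
    · refine Eventually.of_forall fun N => ?_
      have h1 : ∏ n ∈ Finset.range N, |Real.sinc (Real.exp 1 / x n * y)| ≤ 1 :=
        Finset.prod_le_one (fun _ _ => abs_nonneg _) (fun _ _ => hle1 _)
      refine h1.trans ?_
      rw [← Real.exp_add]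
      have h9 := hm hy1.le
      exact Real.one_le_exp (by linarith)
    · filter_upwards [eventually_ge_atTop ⌊Φ y⌋₊] with N hN
      have hy0 : (0 : ℝ) < y := by linarith
      have hΦy : 0 ≤ Φ y := by
        rw [hΦ]
        have h1 := hm hy1
        have h2 := Real.sqrt_nonneg y
        linarith
      rw [← Finset.prod_range_mul_prod_Ico _ hN]
      have h1 : ∏ n ∈ Finset.range ⌊Φ y⌋₊, |Real.sinc (Real.exp 1 / x n * y)| ≤
          Real.exp (-1) ^ ⌊Φ y⌋₊ := by
        calc ∏ n ∈ Finset.range ⌊Φ y⌋₊, |Real.sinc (Real.exp 1 / x n * y)| ≤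
              ∏ n ∈ Finset.range ⌊Φ y⌋₊, Real.exp (-1) := by
              apply Finset.prod_le_prod (fun _ _ => abs_nonneg _)
              intro n hn
              rw [Finset.mem_range] at hn
              have h2 : (n : ℝ) + 1 ≤ Φ y := by
                have : n + 1 ≤ ⌊Φ y⌋₊ := hn
                rw [Nat.le_floor_iff hΦy] at this
                push_cast at this
                exact this
              have h3 : x n ≤ y := by
                by_contra h
                push Not at h
                have := hΦm y (x n) hy1 h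
                rw [hxΦ n] at this
                linarith
              have h4 : Real.exp 1 ≤ Real.exp 1 / x n * y := by
                rw [div_mul_eq_mul_div, le_div_iff₀ (hx0 n)]
                exact mul_le_mul_of_nonneg_left h3 (Real.exp_pos _).le
              have h5 : 0 < Real.exp 1 / x n * y := lt_of_lt_of_le (Real.exp_pos _) h4
              rw [Real.sinc_of_ne_zero h5.ne', abs_div, abs_of_pos h5, Real.exp_neg, ← one_div]
              exact div_le_div₀ zero_le_one (Real.abs_sin_le_one _) (Real.exp_pos _) h4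
          _ = Real.exp (-1) ^ ⌊Φ y⌋₊ := by
              rw [Finset.prod_const, Finset.card_range]
      have h2 : ∏ n ∈ Finset.Ico ⌊Φ y⌋₊ N, |Real.sinc (Real.exp 1 / x n * y)| ≤ 1 :=
        Finset.prod_le_one (fun _ _ => abs_nonneg _) (fun _ _ => hle1 _)
      have h3 : Real.exp (-1) ^ ⌊Φ y⌋₊ ≤ Real.exp (1 + Ψ 1) * Real.exp (-Ψ y) := by
        rw [← Real.exp_nat_mul, ← Real.exp_add]
        apply Real.exp_le_exp.2
        have h4 := Nat.lt_floor_add_one (Φ y)
        rw [hΦ y] at h4
        have h5 := Real.sqrt_nonneg y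
        rw [hΦ y]
        linarith
      calc _ ≤ Real.exp (-1) ^ ⌊Φ y⌋₊ * 1 :=
            mul_le_mul h1 h2 (Finset.prod_nonneg fun _ _ => abs_nonneg _) (by positivity)
        _ = Real.exp (-1) ^ ⌊Φ y⌋₊ := mul_one _
        _ ≤ _ := h3

end Pool.Agent.Helper5.PG
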