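import Mathlib
import Pool.Agent.Helper5.Pg.Defs

set_option autoImplicit false
open MeasureTheory Set Filter Topology

namespace Pool.Agent.Helper5.PG

theorem sinc_fun_aux1 (x : ℝ) (hx : 0 < x) (hx1 : x ≤ 1) : |Real.sinc x - 1| ≤ 2 * x := by
  have h1 := Real.sin_gt_sub_cube hx
  have h2 : Real.sinc x = Real.sin x / x := Real.sinc_of_ne_zero hx.ne'
  have h3 := Real.sinc_le_one x
  rw [abs_of_nonpos (by linarith)]
  have h4 : 1 - x ^ 2 / 6 ≤ Real.sinc x := by
    rw [h2, le_div_iff₀ hx]
    nlinarith
  nlinarith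

theorem sinc_fun_aux (x : ℝ) : |Real.sinc x - 1| ≤ 2 * |x| := by
  rcases eq_or_ne x 0 with rfl | hx
  · simp
  · by_cases h1 : |x| ≤ 1
    · have h2 : Real.sinc |x| = Real.sinc x := by
        rcases abs_choice x with h | h
        · rw [h]
        · rw [h, Real.sinc_neg]
      rw [← h2]
      exact sinc_fun_aux1 |x| (abs_pos.2 hx) h1
    · push Not at h1
      have h2 := Real.sinc_le_one x
      have h3 := Real.neg_one_le_sinc x
      rw [abs_of_nonpos (by linarith)]
      linarith

theorem sinc_fun (b : ℕ → ℝ) (hb : ∀ n, 0 < b n) (hs : Summable b) :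
    ∃ f : ℝ → ℝ, Continuous f ∧ f 0 = 1 ∧
      ∀ y, Tendsto (fun N => ∏ n ∈ Finset.range N, Real.sinc (b n * y)) atTop (𝓝 (f y)) := by
  classical
  let P : ℕ → ℝ → ℝ := fun N y => ∏ n ∈ Finset.range N, Real.sinc (b n * y)
  let g : ℕ → ℝ → ℝ := fun N y => P (N + 1) y - P N y
  have hP1 : ∀ N y, |P N y| ≤ 1 := by
    intro N y
    show |∏ n ∈ Finset.range N, Real.sinc (b n * y)| ≤ 1
    rw [Finset.abs_prod]
    apply Finset.prod_le_one
    · intro i _
      exact abs_nonneg _
    · intro i _
      rw [abs_le]
      exact ⟨Real.neg_one_le_sinc _, Real.sinc_le_one _⟩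
  have hg : ∀ N y, |g N y| ≤ 2 * (b N * |y|) := by
    intro N y
    have h1 : g N y = P N y * (Real.sinc (b N * y) - 1) := by
      show (∏ n ∈ Finset.range (N + 1), Real.sinc (b n * y)) -
        (∏ n ∈ Finset.range N, Real.sinc (b n * y)) =
        (∏ n ∈ Finset.range N, Real.sinc (b n * y)) * (Real.sinc (b N * y) - 1)
      rw [Finset.prod_range_succ]
      ring
    rw [h1, abs_mul]
    have h2 := sinc_fun_aux (b N * y)
    rw [abs_mul, abs_of_pos (hb N)] at h2
    calc |P N y| * |Real.sinc (b N * y) - 1| ≤ 1 * |Real.sinc (b N * y) - 1| :=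
          mul_le_mul_of_nonneg_right (hP1 N y) (abs_nonneg _)
      _ ≤ _ := by rw [one_mul]; exact h2
  have hPc : ∀ N, Continuous (P N) := by
    intro N
    apply continuous_finsetProd
    intro i _
    exact Real.continuous_sinc.comp (continuous_const.mul continuous_id)
  have hgc : ∀ N, Continuous (g N) := fun N => (hPc (N + 1)).sub (hPc N)
  have hsum : ∀ y, Summable (fun N => g N y) := by
    intro y
    apply Summable.of_norm_bounded (g := fun N => 2 * (b N * |y|))
    · exact (hs.mul_right |y|).mul_left 2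
    · intro N
      exact hg N y
  refine ⟨fun y => 1 + ∑' N, g N y, ?_, ?_, ?_⟩
  · apply continuous_const.add
    rw [continuous_iff_continuousAt]
    intro y
    have h1 : ContinuousOn (fun y => ∑' N, g N y) (Metric.ball 0 (|y| + 1)) := by
      apply continuousOn_tsum (u := fun N => 2 * (b N * (|y| + 1)))
      · intro N
        exact (hgc N).continuousOn
      · exact (hs.mul_right (|y| + 1)).mul_left 2
      · intro N z hz
        refine (hg N z).trans ?_
        have h2 : |z| ≤ |y| + 1 := by
          rw [Metric.mem_ball, dist_zero_right] at hz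
          exact hz.le
        have h3 := mul_le_mul_of_nonneg_left h2 (hb N).le
        linarith
    apply h1.continuousAt
    apply Metric.isOpen_ball.mem_nhds
    rw [Metric.mem_ball, dist_zero_right, Real.norm_eq_abs]
    linarith
  · have h1 : ∀ N, g N 0 = 0 := by
      intro N
      have := hg N 0
      rw [abs_zero, mul_zero, mul_zero] at this
      exact abs_nonpos_iff.1 this
    simp [h1]
  · intro y
    have h1 := (hsum y).hasSum.tendsto_sum_nat
    have h2 : ∀ N, ∑ n ∈ Finset.range N, g n y = P N y - 1 := by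
      intro N
      show ∑ n ∈ Finset.range N, (P (n + 1) y - P n y) = P N y - 1
      rw [Finset.sum_range_sub (fun n => P n y)]
      simp [P]
    have h3 := h1.const_add 1
    refine h3.congr ?_
    intro N
    rw [h2]
    show 1 + (P N y - 1) = P N y
    ring

end Pool.Agent.Helper5.PG
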