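import Mathlib
import Pool.Agent.Helper5.Pg.Defs

set_option autoImplicit false
open MeasureTheory Set Filter Topology

namespace Pool.Agent.Helper5.PG

/-- entire sinc function -/
noncomputable def slS : ℂ → ℂ := dslope Complex.sin 0

theorem slS_diff : Differentiable ℂ slS := by
  rw [← differentiableOn_univ]
  exact (Complex.differentiableOn_dslope Filter.univ_mem).2
    Complex.differentiable_sin.differentiableOn

theorem slS_ne {z : ℂ} (hz : z ≠ 0) : slS z = Complex.sin z / z := by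
  unfold slS
  rw [dslope_of_ne _ hz, slope_def_field, Complex.sin_zero, sub_zero, sub_zero]

theorem slS_real (x : ℝ) : slS (x : ℂ) = ((Real.sinc x : ℝ) : ℂ) := by
  by_cases hx : x = 0
  · subst hx
    rw [Complex.ofReal_zero, Real.sinc_zero, Complex.ofReal_one]
    unfold slS
    rw [dslope_same, Complex.deriv_sin, Complex.cos_zero]
  · rw [slS_ne (by exact_mod_cast hx), Real.sinc_of_ne_zero hx]
    push_cast
    rfl

theorem sl_sin_bound {w : ℂ} (hw : 0 ≤ w.im) : ‖Complex.sin w‖ ≤ Real.exp w.im := by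
  have h1 : ‖Complex.exp (-w * Complex.I)‖ = Real.exp w.im := by
    rw [Complex.norm_exp]; simp
  have h2 : ‖Complex.exp (w * Complex.I)‖ ≤ Real.exp w.im := by
    rw [Complex.norm_exp]
    apply Real.exp_le_exp.2
    simp
    linarith
  have h3 : Complex.sin w =
      (Complex.exp (-w * Complex.I) - Complex.exp (w * Complex.I)) * Complex.I / 2 := rfl
  rw [h3, norm_div, norm_mul, Complex.norm_I, mul_one]
  have h4 : ‖(2 : ℂ)‖ = 2 := by simp
  rw [h4, div_le_iff₀ (by norm_num)]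
  calc ‖Complex.exp (-w * Complex.I) - Complex.exp (w * Complex.I)‖
      ≤ ‖Complex.exp (-w * Complex.I)‖ + ‖Complex.exp (w * Complex.I)‖ := norm_sub_le _ _
    _ ≤ Real.exp w.im * 2 := by rw [h1]; linarith

theorem slS_bound {b : ℝ} (hb : 0 < b) {z : ℂ} (hz : z ≠ 0) (him : 0 ≤ z.im) :
    ‖slS ((b : ℂ) * z)‖ ≤ Real.exp (b * z.im) * (b * ‖z‖)⁻¹ := by
  have hb' : (b : ℂ) ≠ 0 := by exact_mod_cast hb.ne'
  have him' : ((b : ℂ) * z).im = b * z.im := by simp
  rw [slS_ne (mul_ne_zero hb' hz), norm_div, norm_mul, Complex.norm_real, Real.norm_eq_abs,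
    abs_of_pos hb, div_eq_mul_inv]
  apply mul_le_mul_of_nonneg_right _ (by positivity)
  rw [← him']
  exact sl_sin_bound (by rw [him']; positivity)

/-- the entire function -/
noncomputable def slH (N j : ℕ) (b : ℕ → ℝ) (B : ℝ) (z : ℂ) : ℂ :=
  z ^ j * Complex.exp (Complex.I * B * z) * ∏ n ∈ Finset.range N, slS ((b n : ℂ) * z)

theorem slH_diff (N j : ℕ) (b : ℕ → ℝ) (B : ℝ) : Differentiable ℂ (slH N j b B) := by
  unfold slH
  apply Differentiable.mul
  · apply Differentiable.mul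
    · exact differentiable_id.pow j
    · exact (differentiable_id.const_mul _).cexp
  · apply Differentiable.fun_finsetProd
    intro n _
    exact slS_diff.comp (differentiable_id.const_mul _)

theorem slH_bound (N j : ℕ) (hj : j + 2 ≤ N) (b : ℕ → ℝ) (hb : ∀ n, 0 < b n) (B : ℝ)
    (hB : ∑ n ∈ Finset.range N, b n < B) {z : ℂ} (hz : 1 ≤ ‖z‖) (him : 0 ≤ z.im) :
    ‖slH N j b B z‖ ≤ (∏ n ∈ Finset.range N, (b n)⁻¹) * (‖z‖ ^ 2)⁻¹ := by
  have hz0 : z ≠ 0 := by
    intro h; rw [h, norm_zero] at hz; linarith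
  have hzpos : 0 < ‖z‖ := by linarith
  unfold slH
  rw [norm_mul, norm_mul, norm_pow, Complex.norm_exp, norm_prod]
  have h1 : (Complex.I * B * z).re = -(B * z.im) := by simp
  rw [h1]
  have h2 : ∏ n ∈ Finset.range N, ‖slS ((b n : ℂ) * z)‖ ≤
      ∏ n ∈ Finset.range N, (Real.exp (b n * z.im) * (b n * ‖z‖)⁻¹) :=
    Finset.prod_le_prod (fun n _ => norm_nonneg _) (fun n _ => slS_bound (hb n) hz0 him)
  have h3 : ∏ n ∈ Finset.range N, (Real.exp (b n * z.im) * (b n * ‖z‖)⁻¹) =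
      Real.exp ((∑ n ∈ Finset.range N, b n) * z.im) * (∏ n ∈ Finset.range N, (b n)⁻¹) *
        (‖z‖ ^ N)⁻¹ := by
    rw [Finset.prod_mul_distrib, ← Real.exp_sum, ← Finset.sum_mul]
    simp only [mul_inv]
    rw [Finset.prod_mul_distrib, Finset.prod_const, Finset.card_range, inv_pow]
    ring
  rw [h3] at h2
  have hC : 0 ≤ ∏ n ∈ Finset.range N, (b n)⁻¹ :=
    Finset.prod_nonneg fun n _ => (inv_pos.2 (hb n)).le
  have h4 : Real.exp (-(B * z.im)) * Real.exp ((∑ n ∈ Finset.range N, b n) * z.im) ≤ 1 := by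
    rw [← Real.exp_add]
    apply Real.exp_le_one_iff.2
    nlinarith [mul_nonneg (sub_nonneg.2 hB.le) him]
  have h5 : ‖z‖ ^ j * (‖z‖ ^ N)⁻¹ ≤ (‖z‖ ^ 2)⁻¹ := by
    rw [← div_eq_mul_inv, div_le_iff₀ (by positivity), ← div_eq_inv_mul, le_div_iff₀ (by positivity),
      ← pow_add]
    exact pow_le_pow_right₀ hz hj
  calc ‖z‖ ^ j * Real.exp (-(B * z.im)) * ∏ n ∈ Finset.range N, ‖slS ((b n : ℂ) * z)‖
      ≤ ‖z‖ ^ j * Real.exp (-(B * z.im)) * (Real.exp ((∑ n ∈ Finset.range N, b n) * z.im) *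
        (∏ n ∈ Finset.range N, (b n)⁻¹) * (‖z‖ ^ N)⁻¹) :=
        mul_le_mul_of_nonneg_left h2 (by positivity)
    _ = (Real.exp (-(B * z.im)) * Real.exp ((∑ n ∈ Finset.range N, b n) * z.im)) *
        ((∏ n ∈ Finset.range N, (b n)⁻¹) * (‖z‖ ^ j * (‖z‖ ^ N)⁻¹)) := by ring
    _ ≤ 1 * ((∏ n ∈ Finset.range N, (b n)⁻¹) * (‖z‖ ^ 2)⁻¹) := by
        apply mul_le_mul h4 (mul_le_mul_of_nonneg_left h5 hC) (by positivity) (by norm_num)
    _ = _ := one_mul _

theorem slH_real (N j : ℕ) (b : ℕ → ℝ) (B : ℝ) (y : ℝ) :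
    slH N j b B (y : ℂ) = (y : ℂ) ^ j * Complex.exp (Complex.I * B * y) *
      ((∏ n ∈ Finset.range N, Real.sinc (b n * y) : ℝ) : ℂ) := by
  unfold slH
  rw [Complex.ofReal_prod]
  congr 1
  refine Finset.prod_congr rfl fun n _ => ?_
  rw [← slS_real]
  push_cast
  rfl

theorem sinc_line (N j : ℕ) (hj : j + 2 ≤ N) (b : ℕ → ℝ) (hb : ∀ n, 0 < b n) (B : ℝ)
    (hB : ∑ n ∈ Finset.range N, b n < B) :
    Integrable (fun y : ℝ => (y : ℂ) ^ j * Complex.exp (Complex.I * B * y) *
      ((∏ n ∈ Finset.range N, Real.sinc (b n * y) : ℝ) : ℂ)) ∧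
    ∫ y : ℝ, (y : ℂ) ^ j * Complex.exp (Complex.I * B * y) *
      ((∏ n ∈ Finset.range N, Real.sinc (b n * y) : ℝ) : ℂ) = 0 := by
  have hfun : (fun y : ℝ => (y : ℂ) ^ j * Complex.exp (Complex.I * B * y) *
      ((∏ n ∈ Finset.range N, Real.sinc (b n * y) : ℝ) : ℂ)) =
      fun y : ℝ => slH N j b B (y : ℂ) := by
    funext y; rw [slH_real]
  rw [hfun]
  obtain ⟨C, hC⟩ : ∃ C : ℝ, C = ∏ n ∈ Finset.range N, (b n)⁻¹ := ⟨_, rfl⟩
  have hC0 : 0 ≤ C := by
    rw [hC]; exact Finset.prod_nonneg fun n _ => (inv_pos.2 (hb n)).le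
  have hbd : ∀ z : ℂ, 1 ≤ ‖z‖ → 0 ≤ z.im → ‖slH N j b B z‖ ≤ C * (‖z‖ ^ 2)⁻¹ := by
    intro z h1 h2
    rw [hC]; exact slH_bound N j hj b hb B hB h1 h2
  have hcont : Continuous (fun y : ℝ => slH N j b B (y : ℂ)) :=
    (slH_diff N j b B).continuous.comp Complex.continuous_ofReal
  have hint : Integrable (fun y : ℝ => slH N j b B (y : ℂ)) := by
    have hg : Integrable (fun y : ℝ => (2 * (C + 1)) * (1 + y ^ 2)⁻¹) :=
      integrable_inv_one_add_sq.const_mul _
    refine hg.mono' hcont.aestronglyMeasurable (Filter.Eventually.of_forall fun y => ?_)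
    by_cases hy : 1 ≤ |y|
    · have h1 := hbd (y : ℂ) (by rw [Complex.norm_real]; exact hy) (by simp)
      rw [Complex.norm_real, Real.norm_eq_abs, sq_abs] at h1
      refine h1.trans ?_
      have hy2 : 1 ≤ y ^ 2 := by
        rw [← sq_abs]; exact one_le_pow₀ hy
      have h2 : (y ^ 2)⁻¹ ≤ 2 * (1 + y ^ 2)⁻¹ := by
        rw [← div_eq_mul_inv, inv_eq_one_div, div_le_div_iff₀ (by positivity) (by positivity)]
        linarith
      calc C * (y ^ 2)⁻¹ ≤ (C + 1) * (2 * (1 + y ^ 2)⁻¹) :=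
            mul_le_mul (by linarith) h2 (by positivity) (by positivity)
        _ = 2 * (C + 1) * (1 + y ^ 2)⁻¹ := by ring
    · have hy' : |y| ≤ 1 := (not_le.1 hy).le
      rw [slH_real, norm_mul, norm_mul, norm_pow, Complex.norm_real, Complex.norm_real,
        Complex.norm_exp, Real.norm_eq_abs, Real.norm_eq_abs]
      have h1 : (Complex.I * B * (y : ℂ)).re = 0 := by simp
      rw [h1, Real.exp_zero, mul_one, Finset.abs_prod]
      have h2 : ∏ n ∈ Finset.range N, |Real.sinc (b n * y)| ≤ 1 :=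
        Finset.prod_le_one (fun n _ => abs_nonneg _) (fun n _ => Real.abs_sinc_le_one _)
      have h3 : |y| ^ j ≤ 1 := pow_le_one₀ (abs_nonneg _) hy'
      have h4 : |y| ^ j * ∏ n ∈ Finset.range N, |Real.sinc (b n * y)| ≤ 1 :=
        mul_le_one₀ h3 (Finset.prod_nonneg fun n _ => abs_nonneg _) h2
      refine h4.trans ?_
      have hy2 : y ^ 2 ≤ 1 := by
        rw [← sq_abs]; exact pow_le_one₀ (abs_nonneg _) hy'
      rw [← div_eq_mul_inv, le_div_iff₀ (by positivity)]
      nlinarith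
  refine ⟨hint, ?_⟩
  -- the contour
  have hbound : ∀ R : ℝ, 1 ≤ R → ‖∫ x in (-R)..R, slH N j b B (x : ℂ)‖ ≤ 4 * C / R := by
    intro R hR
    have hR0 : 0 < R := by linarith
    have hrect := Complex.integral_boundary_rect_eq_zero_of_differentiableOn (slH N j b B)
      (((-R : ℝ) : ℂ)) ((R : ℂ) + (R : ℂ) * Complex.I) (slH_diff N j b B).differentiableOn
    have k1 : ((R : ℂ) + (R : ℂ) * Complex.I).re = R := by simp
    have k2 : ((R : ℂ) + (R : ℂ) * Complex.I).im = R := by simp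
    rw [k1, k2, Complex.ofReal_re, Complex.ofReal_im] at hrect
    have k3 : (∫ x : ℝ in (-R)..R, slH N j b B (x + ((0 : ℝ) : ℂ) * Complex.I)) =
        ∫ x in (-R)..R, slH N j b B (x : ℂ) := by
      refine intervalIntegral.integral_congr fun x _ => ?_
      simp
    rw [k3] at hrect
    have hside : ∀ (z : ℂ), 0 ≤ z.im → R ≤ ‖z‖ → ‖slH N j b B z‖ ≤ C / R ^ 2 := by
      intro z hz1 hz2
      refine (hbd z (hR.trans hz2) hz1).trans ?_
      rw [div_eq_mul_inv]
      apply mul_le_mul_of_nonneg_left _ hC0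
      apply inv_anti₀ (by positivity)
      exact pow_le_pow_left₀ hR0.le hz2 2
    have t1 : ‖∫ x : ℝ in (-R)..R, slH N j b B (x + (R : ℂ) * Complex.I)‖ ≤ C / R ^ 2 * |R - -R| := by
      apply intervalIntegral.norm_integral_le_of_norm_le_const
      intro x _
      apply hside
      · simp; exact hR0.le
      · have := Complex.abs_im_le_norm ((x : ℂ) + (R : ℂ) * Complex.I)
        have e : ((x : ℂ) + (R : ℂ) * Complex.I).im = R := by simp
        rw [e, abs_of_pos hR0] at this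
        exact this
    have t2 : ‖∫ y : ℝ in (0 : ℝ)..R, slH N j b B ((R : ℂ) + y * Complex.I)‖ ≤
        C / R ^ 2 * |R - 0| := by
      apply intervalIntegral.norm_integral_le_of_norm_le_const
      intro y hy
      rw [Set.uIoc_of_le hR0.le] at hy
      apply hside
      · simp; exact hy.1.le
      · have := Complex.abs_re_le_norm ((R : ℂ) + (y : ℂ) * Complex.I)
        have e : ((R : ℂ) + (y : ℂ) * Complex.I).re = R := by simp
        rw [e, abs_of_pos hR0] at this
        exact this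
    have t3 : ‖∫ y : ℝ in (0 : ℝ)..R, slH N j b B (((-R : ℝ) : ℂ) + y * Complex.I)‖ ≤
        C / R ^ 2 * |R - 0| := by
      apply intervalIntegral.norm_integral_le_of_norm_le_const
      intro y hy
      rw [Set.uIoc_of_le hR0.le] at hy
      apply hside
      · simp; exact hy.1.le
      · have := Complex.abs_re_le_norm (((-R : ℝ) : ℂ) + (y : ℂ) * Complex.I)
        have e : (((-R : ℝ) : ℂ) + (y : ℂ) * Complex.I).re = -R := by simp
        rw [e, abs_neg, abs_of_pos hR0] at this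
        exact this
    have heq : ∫ x in (-R)..R, slH N j b B (x : ℂ) =
        (∫ x : ℝ in (-R)..R, slH N j b B (x + (R : ℂ) * Complex.I)) -
        Complex.I • (∫ y : ℝ in (0 : ℝ)..R, slH N j b B ((R : ℂ) + y * Complex.I)) +
        Complex.I • (∫ y : ℝ in (0 : ℝ)..R, slH N j b B (((-R : ℝ) : ℂ) + y * Complex.I)) := by
      linear_combination hrect
    rw [heq]
    have e1 : |R - -R| = 2 * R := by rw [abs_of_pos (by linarith)]; ring
    have e2 : |R - 0| = R := by rw [sub_zero, abs_of_pos hR0]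
    rw [e1] at t1
    rw [e2] at t2 t3
    refine (norm_add_le _ _).trans ?_
    refine (add_le_add (norm_sub_le _ _) le_rfl).trans ?_
    rw [norm_smul, norm_smul, Complex.norm_I, one_mul, one_mul]
    have e3 : 4 * C / R = C / R ^ 2 * (2 * R) + C / R ^ 2 * R + C / R ^ 2 * R := by
      field_simp; ring
    rw [e3]
    exact add_le_add (add_le_add t1 t2) t3
  have hlim : Tendsto (fun R : ℝ => ∫ x in (-R)..R, slH N j b B (x : ℂ)) atTop
      (𝓝 (∫ y : ℝ, slH N j b B (y : ℂ))) :=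
    intervalIntegral_tendsto_integral hint tendsto_neg_atTop_atBot tendsto_id
  have hlim0 : Tendsto (fun R : ℝ => ∫ x in (-R)..R, slH N j b B (x : ℂ)) atTop (𝓝 0) := by
    apply squeeze_zero_norm' (a := fun R : ℝ => 4 * C / R)
    · filter_upwards [eventually_ge_atTop (1 : ℝ)] with R hR
      exact hbound R hR
    · exact tendsto_const_nhds.div_atTop tendsto_id
  exact tendsto_nhds_unique hlim hlim0

end Pool.Agent.Helper5.PG
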