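import Mathlib
import Pool.Agent.Helper5.Pg.Defs
import Pool.Agent.Helper5.Pk.SincLine

set_option autoImplicit false
open MeasureTheory Set Filter Topology

namespace Pool.Agent.Helper5.PG

theorem sinc_moment (b : ℕ → ℝ) (hb : ∀ n, 0 < b n) (hs : Summable b) (f : ℝ → ℝ)
    (hf : ∀ y, Tendsto (fun N => ∏ n ∈ Finset.range N, Real.sinc (b n * y)) atTop (𝓝 (f y)))
    (B : ℝ) (hB : ∑' n, b n < B) (k : ℕ) :
    IntegrableOn (fun y : ℝ => y ^ (2 * k + 1) * (Real.sin (B * y) * f y)) (Ioi 0) ∧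
    ∫ y in Ioi (0:ℝ), y ^ (2 * k + 1) * (Real.sin (B * y) * f y) = 0 := by
  set F : ℕ → ℝ → ℝ := fun N y => ∏ n ∈ Finset.range N, Real.sinc (b n * y) with hF
  set j : ℕ := 2 * k + 1 with hj
  set N0 : ℕ := j + 2 with hN0
  set G : ℕ → ℝ → ℂ := fun N y => (y : ℂ) ^ j * Complex.exp (Complex.I * B * y) * ((F N y : ℝ) : ℂ)
    with hG
  set Gi : ℝ → ℂ := fun y => (y : ℂ) ^ j * Complex.exp (Complex.I * B * y) * ((f y : ℝ) : ℂ)
    with hGi
  have hsum : ∀ N, ∑ n ∈ Finset.range N, b n < B := fun N =>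
    lt_of_le_of_lt (hs.sum_le_tsum (Finset.range N) (fun n _ => (hb n).le)) hB
  have hGN : ∀ N, N0 ≤ N → Integrable (G N) ∧ ∫ y : ℝ, G N y = 0 := by
    intro N hN
    exact sinc_line N j hN b hb B (hsum N)
  have hFle : ∀ N, N0 ≤ N → ∀ y, |F N y| ≤ |F N0 y| := by
    intro N hN y
    induction N, hN using Nat.le_induction with
    | base => exact le_rfl
    | succ N hN ih =>
      have e : F (N + 1) y = F N y * Real.sinc (b N * y) := by
        simp only [hF, Finset.prod_range_succ]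
      rw [e, abs_mul]
      calc |F N y| * |Real.sinc (b N * y)| ≤ |F N y| * 1 :=
            mul_le_mul_of_nonneg_left (Real.abs_sinc_le_one _) (abs_nonneg _)
        _ ≤ |F N0 y| := by rw [mul_one]; exact ih
  have hGle : ∀ N, N0 ≤ N → ∀ y, ‖G N y‖ ≤ ‖G N0 y‖ := by
    intro N hN y
    simp only [hG, norm_mul]
    refine mul_le_mul_of_nonneg_left ?_ (by positivity)
    rw [Complex.norm_real, Complex.norm_real]
    exact hFle N hN y
  have hlim : ∀ y, Tendsto (fun N => G N y) atTop (𝓝 (Gi y)) := by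
    intro y
    have h1 : Tendsto (fun N => ((F N y : ℝ) : ℂ)) atTop (𝓝 ((f y : ℝ) : ℂ)) :=
      (Complex.continuous_ofReal.tendsto _).comp (hf y)
    exact h1.const_mul _
  have hlim' : ∀ y, Tendsto (fun N => G (N + N0) y) atTop (𝓝 (Gi y)) :=
    fun y => (hlim y).comp (tendsto_add_atTop_nat N0)
  have hmeas : ∀ N, AEStronglyMeasurable (G (N + N0)) volume := fun N =>
    (hGN (N + N0) (by omega)).1.aestronglyMeasurable
  have hGim : AEStronglyMeasurable Gi volume :=
    aestronglyMeasurable_of_tendsto_ae atTop hmeas (Eventually.of_forall hlim')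
  have hGint : Integrable Gi := by
    refine Integrable.mono' (hGN N0 le_rfl).1.norm hGim (Eventually.of_forall fun y => ?_)
    refine le_of_tendsto ((continuous_norm.tendsto _).comp (hlim' y)) (Eventually.of_forall fun N => ?_)
    exact hGle (N + N0) (by omega) y
  have hint0 : ∫ y : ℝ, Gi y = 0 := by
    have ht := tendsto_integral_of_dominated_convergence (fun y => ‖G N0 y‖) hmeas
      (hGN N0 le_rfl).1.norm (fun N => Eventually.of_forall (hGle (N + N0) (by omega)))
      (Eventually.of_forall hlim')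
    have hz : (fun N => ∫ y : ℝ, G (N + N0) y) = fun _ => (0 : ℂ) := by
      funext N
      exact (hGN (N + N0) (by omega)).2
    rw [hz] at ht
    exact (tendsto_nhds_unique ht tendsto_const_nhds)
  have him : ∀ y : ℝ, (Gi y).im = y ^ (2 * k + 1) * (Real.sin (B * y) * f y) := by
    intro y
    have e1 : Complex.exp (Complex.I * B * y) =
        ((Real.cos (B * y) : ℝ) : ℂ) + ((Real.sin (B * y) : ℝ) : ℂ) * Complex.I := by
      have : Complex.I * B * y = ((B * y : ℝ) : ℂ) * Complex.I := by push_cast; ring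
      rw [this, Complex.exp_mul_I, Complex.ofReal_cos, Complex.ofReal_sin]
    simp only [hGi]
    rw [e1, ← Complex.ofReal_pow]
    have e2 : ((y ^ j : ℝ) : ℂ) * (((Real.cos (B * y) : ℝ) : ℂ) + ((Real.sin (B * y) : ℝ) : ℂ) * Complex.I)
        * ((f y : ℝ) : ℂ) = ((y ^ j * Real.cos (B * y) * f y : ℝ) : ℂ) +
        ((y ^ j * (Real.sin (B * y) * f y) : ℝ) : ℂ) * Complex.I := by
      push_cast; ring
    rw [e2, Complex.add_im, Complex.ofReal_im, Complex.mul_im, Complex.ofReal_re, Complex.ofReal_im,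
      Complex.I_im, Complex.I_re, mul_one, mul_zero, add_zero, zero_add]
  have hφint : Integrable (fun y : ℝ => y ^ (2 * k + 1) * (Real.sin (B * y) * f y)) := by
    have h1 := hGint.im
    refine h1.congr (Eventually.of_forall fun y => ?_)
    exact him y
  have hφ0 : ∫ y : ℝ, y ^ (2 * k + 1) * (Real.sin (B * y) * f y) = 0 := by
    have h1 : ∫ y : ℝ, RCLike.im (Gi y) = RCLike.im (∫ y : ℝ, Gi y) := integral_im hGint
    rw [hint0] at h1
    have h2 : ∫ y : ℝ, RCLike.im (Gi y) =
        ∫ y : ℝ, y ^ (2 * k + 1) * (Real.sin (B * y) * f y) :=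
      integral_congr_ae (Eventually.of_forall fun y => him y)
    rw [← h2, h1]
    simp
  have hfe : ∀ y, f (-y) = f y := by
    intro y
    have h1 := hf (-y)
    have h2 : (fun N => ∏ n ∈ Finset.range N, Real.sinc (b n * -y)) =
        fun N => ∏ n ∈ Finset.range N, Real.sinc (b n * y) := by
      funext N
      refine Finset.prod_congr rfl fun n _ => ?_
      rw [mul_neg, Real.sinc_neg]
    rw [h2] at h1
    exact tendsto_nhds_unique h1 (hf y)
  refine ⟨hφint.integrableOn, ?_⟩
  have habs : ∀ y : ℝ, |y| ^ (2 * k + 1) * (Real.sin (B * |y|) * f |y|) =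
      y ^ (2 * k + 1) * (Real.sin (B * y) * f y) := by
    intro y
    rcases abs_cases y with ⟨h, _⟩ | ⟨h, _⟩
    · rw [h]
    · rw [h, hfe, mul_neg, Real.sin_neg]
      have : (-y) ^ (2 * k + 1) = -(y ^ (2 * k + 1)) := by
        rw [Odd.neg_pow ⟨k, rfl⟩]
      rw [this]; ring
  have h3 := integral_comp_abs (f := fun y : ℝ => y ^ (2 * k + 1) * (Real.sin (B * y) * f y))
  have h4 : ∫ y : ℝ, |y| ^ (2 * k + 1) * (Real.sin (B * |y|) * f |y|) = 0 := by
    rw [← hφ0]
    exact integral_congr_ae (Eventually.of_forall habs)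
  rw [h4] at h3
  linarith

end Pool.Agent.Helper5.PG
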