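import Mathlib
import Pool.Agent.Helper5.Pg.Defs
import Pool.Agent.Helper5.Pg.RadicalBound

set_option autoImplicit false
open MeasureTheory Set Filter Topology

namespace Pool.Agent.Helper5.PG

theorem small_a (w : ℝ → ℝ) (hw : IsWeight w) (hr : IsRadical w) (a : ℝ) (ha : 0 < a)
    (ha2 : a ≤ 2) :
    ¬ IntegrableOn (fun t : ℝ => -Real.log (w t) * t ^ (-(1 + a / 2))) (Ioi 1) := by
  intro hint
  obtain ⟨K, hK⟩ := radical_bound w hw hr 1
  have hK0 : 0 < K := by
    have h1 := hK 0 le_rfl
    have h2 := hw.pos 0 le_rfl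
    simp at h1
    linarith
  set T : ℝ := max 1 (2 * Real.log K) with hT
  have hT1 : 1 ≤ T := le_max_left _ _
  have hT2 : 2 * Real.log K ≤ T := le_max_right _ _
  have hlow : ∀ t : ℝ, T < t → t / 2 ≤ -Real.log (w t) := by
    intro t ht
    have ht0 : 0 < t := by linarith
    have h1 := hK t ht0.le
    have h2 := Real.log_le_log (hw.pos t ht0.le) h1
    rw [Real.log_mul hK0.ne' (Real.exp_pos _).ne', Real.log_exp] at h2
    linarith
  have hint2 : IntegrableOn (fun t : ℝ => -Real.log (w t) * t ^ (-(1 + a / 2))) (Ioi T) :=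
    hint.mono_set (Ioi_subset_Ioi hT1)
  have hint3 : IntegrableOn (fun t : ℝ => 2 * (-Real.log (w t) * t ^ (-(1 + a / 2)))) (Ioi T) :=
    hint2.const_mul 2
  have hint4 : IntegrableOn (fun t : ℝ => t ^ (-(a / 2))) (Ioi T) := by
    refine Integrable.mono' hint3 ?_ ?_
    · exact (Measurable.pow_const measurable_id _).aestronglyMeasurable
    · refine (ae_restrict_iff' measurableSet_Ioi).2 (Filter.Eventually.of_forall ?_)
      intro t ht
      have ht' : T < t := ht
      have ht0 : 0 < t := by linarith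
      have h1 := hlow t ht'
      have h2 : t ^ (-(a / 2)) = t * t ^ (-(1 + a / 2)) := by
        have : -(a / 2) = 1 + (-(1 + a / 2)) := by ring
        conv_lhs => rw [this, Real.rpow_add ht0, Real.rpow_one]
      have h3 : 0 ≤ t ^ (-(1 + a / 2)) := Real.rpow_nonneg ht0.le _
      rw [Real.norm_of_nonneg (Real.rpow_nonneg ht0.le _), h2]
      nlinarith
  have hT0 : 0 < T := by linarith
  rw [integrableOn_Ioi_rpow_iff hT0] at hint4
  linarith

end Pool.Agent.Helper5.PG
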