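import Mathlib
import Pool.Agent.Helper5.Pe.Main1
import Pool.Agent.Helper5.Pe.Main2
import Pool.Agent.Helper5.Pe.Class1
import Pool.Agent.Helper5.Pe.Class2
import Pool.Agent.Helper5.Pe.GenCongr

set_option autoImplicit false

open MeasureTheory Set Filter Topology

namespace Pool.Agent.Helper5.PG

theorem smooth_one (w : ℝ → ℝ) (hw : IsWeight w) (hr : IsRadical w) (f k : ℝ → ℂ) (c b : ℂ)
    (hc : c ≠ 0) (hk : Measurable k) (hkb : ∃ C m : ℝ, ∀ t, 0 < t → ‖k t‖ ≤ C * Real.exp (m * t))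
    (hf : ∀ t, 0 < t → f t = c + b * t + ∫ s in (0:ℝ)..t, ((t - s : ℝ) : ℂ) * k s) :
    IsPolyGen w f := by
  obtain ⟨C, m, hkb⟩ := hkb
  set k0 : ℝ → ℂ := fun t => if 0 < t then k t else 0 with hk0
  have hk0e : EBd C m k0 := by
    refine ⟨Measurable.ite measurableSet_Ioi hk measurable_const, fun t ht => by
      simp [hk0, not_lt.mpr ht], fun t ht => by simpa [hk0, ht] using hkb t ht⟩
  set f0 : ℝ → ℂ := fun t => if 0 < t then c + b * t + ∫ s in (0:ℝ)..t, ((t - s : ℝ) : ℂ) * k0 s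
    else 0 with hf0
  obtain ⟨C', m', ρ0, ρ, hC', hm', h1, h2, h3⟩ := class1 C m k0 hk0e c b hc f0 (fun t => rfl)
  refine gen_congr w hw f0 f (fun t ht => ?_) (main1 w hw hr C' m' hC' hm' f0 ρ h1 h2 c ρ0 hc h3)
  rw [hf t ht]
  simp only [hf0, ht, if_true]
  congr 1
  refine intervalIntegral.integral_congr_ae (ae_of_all _ fun s hs => ?_)
  rw [uIoc_of_le ht.le] at hs
  simp [hk0, hs.1]

theorem smooth_two (w : ℝ → ℝ) (hw : IsWeight w) (hr : IsRadical w) (f k : ℝ → ℂ) (c b b' : ℂ)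
    (hc : c ≠ 0) (hk : Measurable k) (hkb : ∃ C m : ℝ, ∀ t, 0 < t → ‖k t‖ ≤ C * Real.exp (m * t))
    (hf : ∀ t, 0 < t → f t = c * t + b * (t : ℂ) ^ 2 / 2 + b' * (t : ℂ) ^ 3 / 6 +
      ∫ s in (0:ℝ)..t, ((t - s : ℝ) : ℂ) ^ 3 / 6 * k s) :
    IsPolyGen w f := by
  obtain ⟨C, m, hkb⟩ := hkb
  set k0 : ℝ → ℂ := fun t => if 0 < t then k t else 0 with hk0
  have hk0e : EBd C m k0 := by
    refine ⟨Measurable.ite measurableSet_Ioi hk measurable_const, fun t ht => by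
      simp [hk0, not_lt.mpr ht], fun t ht => by simpa [hk0, ht] using hkb t ht⟩
  set f0 : ℝ → ℂ := fun t => if 0 < t then c * t + b * (t : ℂ) ^ 2 / 2 + b' * (t : ℂ) ^ 3 / 6 +
      ∫ s in (0:ℝ)..t, ((t - s : ℝ) : ℂ) ^ 3 / 6 * k0 s else 0 with hf0
  obtain ⟨C', m', β, ρ0, ρ, hC', hm', h1, h2, h3⟩ :=
    class2 C m k0 hk0e c b b' hc f0 (fun t => rfl)
  refine gen_congr w hw f0 f (fun t ht => ?_)
    (main2 w hw hr C' m' hC' hm' f0 ρ h1 h2 c β ρ0 hc h3)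
  rw [hf t ht]
  simp only [hf0, ht, if_true]
  congr 1
  refine intervalIntegral.integral_congr_ae (ae_of_all _ fun s hs => ?_)
  rw [uIoc_of_le ht.le] at hs
  simp [hk0, hs.1]

end Pool.Agent.Helper5.PG
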